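import Pool.Agent.H75.UB.Full

set_option autoImplicit false
set_option linter.unusedSectionVars false

/-! The entropy method with one threshold for every functional: the functional `t` has the
weight `2 ^ (-L t)`, and the weights have a sum at most the number of points. -/

open Finset

namespace Pool.Agent.H12.UBX

open Pool.Agent.H75.MT Pool.Agent.H75.UB

variable {Y T : Type*} [Fintype Y] [DecidableEq Y] [Fintype T] [DecidableEq T]

/-- two sign vectors with the same rounded values which differ in many places -/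
lemma two_signsN (v : T → Y → ℝ) (L : T → ℕ) (rho : T → ℝ) (hr : ∀ t, 0 < rho t)
    (hY : 0 < Fintype.card Y) (hT : ∑ t, (1 / 2 : ℝ) ^ (L t) ≤ Fintype.card Y)
    (hv : ∀ t, ∑ y, (v t y) ^ 2 ≤ (rho t) ^ 2) :
    ∃ s s' : Finset Y, (∀ t, rv v (((L t : ℝ) + 6) * rho t) s t
      = rv v (((L t : ℝ) + 6) * rho t) s' t) ∧ Fintype.card Y ≤ 8 * #(symmDiff s s') := by
  by_contra hcon
  push Not at hcon
  set N := Fintype.card Y with hN
  set lam : T → ℝ := fun t => (L t : ℝ) + 6 with hlam
  have hl1 : ∀ t, 1 ≤ lam t := by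
    intro t
    simp only [hlam]
    linarith [(Nat.cast_nonneg (L t) : (0 : ℝ) ≤ L t)]
  set b : Finset Y → T → ℤ := fun s t => rv v (lam t * rho t) s t with hb
  set y : T → ℝ := fun t => (1 / 2) ^ (L t + 6) with hy
  have hy0 : ∀ t, 0 < y t := fun t => by positivity
  have hy1 : ∀ t, 3 * y t ≤ 1 := by
    intro t
    have : y t ≤ (1 / 2) ^ 6 := by
      simp only [hy]
      exact pow_le_pow_of_le_one (by norm_num) (by norm_num) (by omega)
    have h2 : ((1 : ℝ) / 2) ^ 6 = 1 / 64 := by norm_num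
    linarith
  set R : ℕ := ∑ s, ∑ t, (b s t).natAbs with hR
  set A : ℕ := bsum N ((N - 1) / 8) with hA
  set c : T → ℝ := fun t => (L t + 6 : ℕ) * Real.log 2 with hc
  have hc0 : ∀ t, 0 ≤ c t := by
    intro t
    have := Real.log_nonneg (by norm_num : (1 : ℝ) ≤ 2)
    simp only [hc]
    positivity
  have hyc : ∀ t, ∀ k : ℕ, y t ^ k = Real.exp (-(c t * k)) := by
    intro t k
    have h1 : y t = Real.exp (-(c t)) := by
      simp only [hy, hc]
      rw [Real.exp_neg, Real.exp_nat_mul, Real.exp_log (by norm_num), one_div, inv_pow]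
    rw [h1, ← Real.exp_nat_mul]
    congr 1
    ring
  -- the costs
  set n : Finset Y → ℝ := fun s => ∑ t, c t * (b s t).natAbs with hn
  have htot : ∑ s, n s ≤ 2 ^ N * (N / 1024) := by
    have h1 : ∑ s, n s = ∑ t, c t * ∑ s, ((b s t).natAbs : ℝ) := by
      simp only [hn]
      rw [Finset.sum_comm]
      exact Finset.sum_congr rfl (fun t _ => by rw [Finset.mul_sum])
    rw [h1]
    have h2 : ∀ t ∈ (univ : Finset T), c t * ∑ s, ((b s t).natAbs : ℝ)
        ≤ 2 ^ N * ((1 / 2) ^ (L t) / 1024) := by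
      intro t _
      have h3 : ∑ s, ((b s t).natAbs : ℝ) ≤ 2 ^ N * (2 * (1 / 2) ^ (8 * L t + 24)) := by
        refine (rv_sum v (lam t) (rho t) (hl1 t) (hr t) t (hv t)).trans ?_
        have h4 := exp_num (L t)
        have : (0 : ℝ) ≤ 2 ^ N := by positivity
        simp only [hlam]
        nlinarith
      have h5 : c t ≤ 2 ^ (L t + 3) := by
        have h2 : Real.log 2 ≤ 1 := by linarith [Real.log_two_lt_d9]
        have h3 : ((L t + 6 : ℕ) : ℝ) ≤ 2 ^ (L t + 3) := by
          have : L t + 6 ≤ 2 ^ (L t + 3) := by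
            have := Nat.lt_two_pow_self (n := L t)
            rw [pow_add]
            omega
          exact_mod_cast this
        have h4 : (0 : ℝ) ≤ ((L t + 6 : ℕ) : ℝ) := by positivity
        calc c t ≤ ((L t + 6 : ℕ) : ℝ) * 1 := by
              simp only [hc]
              gcongr
          _ ≤ 2 ^ (L t + 3) := by linarith
      have h6 : (2 : ℝ) ^ (L t + 3) * (2 * (1 / 2) ^ (8 * L t + 24)) ≤ (1 / 2) ^ (L t) / 1024 := by
        have h7 : 8 * L t + 24 = (L t + 3) + (7 * L t + 21) := by ring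
        have h8 : (2 : ℝ) ^ (L t + 3) * (1 / 2) ^ (L t + 3) = 1 := by
          rw [← mul_pow]
          norm_num
        calc (2 : ℝ) ^ (L t + 3) * (2 * (1 / 2) ^ (8 * L t + 24))
            = 2 * (2 ^ (L t + 3) * (1 / 2) ^ (L t + 3)) * (1 / 2) ^ (7 * L t + 21) := by
              rw [h7, pow_add (1 / 2 : ℝ) (L t + 3)]
              ring
          _ = (1 / 2) ^ (7 * L t + 20) := by
              rw [h8, show 7 * L t + 21 = (7 * L t + 20) + 1 by ring, pow_succ]
              ring
          _ ≤ (1 / 2) ^ (L t + 10) := pow_le_pow_of_le_one (by norm_num) (by norm_num) (by omega)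
          _ = (1 / 2) ^ (L t) / 1024 := by
              rw [pow_add]
              norm_num
              ring
      calc c t * ∑ s, ((b s t).natAbs : ℝ)
          ≤ 2 ^ (L t + 3) * (2 ^ N * (2 * (1 / 2) ^ (8 * L t + 24))) :=
            mul_le_mul h5 h3 (by positivity) (by positivity)
        _ = 2 ^ N * (2 ^ (L t + 3) * (2 * (1 / 2) ^ (8 * L t + 24))) := by ring
        _ ≤ 2 ^ N * ((1 / 2) ^ (L t) / 1024) := mul_le_mul_of_nonneg_left h6 (by positivity)
    refine (Finset.sum_le_sum h2).trans ?_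
    rw [← Finset.mul_sum, ← Finset.sum_div]
    gcongr
  have hlow : (2 : ℝ) ^ N * Real.exp (-(N / 1024 : ℝ))
      ≤ ∑ s : Finset Y, ∏ t, y t ^ (b s t).natAbs := by
    have h0 : ∀ s, ∏ t, y t ^ (b s t).natAbs = Real.exp (-(n s)) := by
      intro s
      simp only [hyc, hn]
      rw [← Real.exp_sum, Finset.sum_neg_distrib]
    set μ : ℝ := N / 1024 with hμ
    have h1 : ∀ s ∈ (univ : Finset (Finset Y)),
        Real.exp (-μ) * (1 + μ - n s) ≤ ∏ t, y t ^ (b s t).natAbs := by
      intro s _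
      rw [h0]
      have h2 : Real.exp (-(n s)) = Real.exp (-μ) * Real.exp (μ - n s) := by
        rw [← Real.exp_add]
        congr 1
        ring
      rw [h2]
      refine mul_le_mul_of_nonneg_left ?_ (Real.exp_pos _).le
      have := Real.add_one_le_exp (μ - n s)
      linarith
    have h2 := Finset.sum_le_sum h1
    refine le_trans ?_ h2
    rw [← Finset.mul_sum, Finset.sum_sub_distrib, Finset.sum_const, Finset.card_univ,
      Fintype.card_finset, nsmul_eq_mul, ← hN]
    have h4 : (2 : ℝ) ^ N ≤ ((2 ^ N : ℕ) : ℝ) * (1 + μ) - ∑ s, n s := by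
      push_cast
      nlinarith
    calc (2 : ℝ) ^ N * Real.exp (-μ) = Real.exp (-μ) * 2 ^ N := by ring
      _ ≤ _ := mul_le_mul_of_nonneg_left h4 (Real.exp_pos _).le
  -- upper bound
  have hfib : ∀ β : T → ℤ, #((univ : Finset (Finset Y)).filter (fun s => b s = β)) ≤ A := by
    intro β
    rcases ((univ : Finset (Finset Y)).filter (fun s => b s = β)).eq_empty_or_nonempty with h | h
    · rw [h]
      simp
    · obtain ⟨s0, hs0⟩ := h
      rw [mem_filter] at hs0
      have h1 : #((univ : Finset (Finset Y)).filter (fun s => b s = β))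
          ≤ #((univ : Finset Y).powerset.filter (fun D => #D ≤ (N - 1) / 8)) := by
        refine Finset.card_le_card_of_injOn (fun s => symmDiff s0 s) ?_ ?_
        · intro s hs
          simp only [coe_filter, Set.mem_ofPred_eq, mem_univ, true_and] at hs
          simp only [coe_filter, Set.mem_ofPred_eq, powerset_univ, mem_univ, true_and]
          have h2 := hcon s0 s (fun t => by
            have := congrFun (hs0.2.trans hs.symm) t
            exact this)
          omega
        · intro s _ s' _ h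
          exact symmDiff_right_injective s0 h
      refine h1.trans ?_
      have := card_small ((N - 1) / 8) (univ : Finset Y)
      rwa [Finset.card_univ] at this
  have hup : ∑ s : Finset Y, ∏ t, y t ^ (b s t).natAbs ≤ A * Real.exp (3 / 64 * N) := by
    have h1 : ∑ s : Finset Y, ∏ t, y t ^ (b s t).natAbs
        = ∑ β ∈ univ.image b, ∑ s ∈ univ.filter (fun s => b s = β), ∏ t, y t ^ (b s t).natAbs :=
      (Finset.sum_fiberwise_of_maps_to (fun s _ => mem_image_of_mem b (mem_univ s)) _).symm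
    have h2 : ∀ β ∈ univ.image b, ∑ s ∈ univ.filter (fun s => b s = β),
        ∏ t, y t ^ (b s t).natAbs ≤ A * ∏ t, y t ^ (β t).natAbs := by
      intro β _
      have h3 : ∀ s ∈ univ.filter (fun s => b s = β), ∏ t, y t ^ (b s t).natAbs
          = ∏ t, y t ^ (β t).natAbs := by
        intro s hs
        rw [mem_filter] at hs
        rw [← hs.2]
      rw [Finset.sum_congr rfl h3, Finset.sum_const, nsmul_eq_mul]
      have h4 : (#(univ.filter (fun s => b s = β)) : ℝ) ≤ A := by exact_mod_cast hfib β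
      exact mul_le_mul_of_nonneg_right h4
        (Finset.prod_nonneg (fun t _ => pow_nonneg (hy0 t).le _))
    rw [h1]
    refine (Finset.sum_le_sum h2).trans ?_
    rw [← Finset.mul_sum]
    refine mul_le_mul_of_nonneg_left ?_ (by positivity)
    have h5 : ∑ β ∈ univ.image b, ∏ t, y t ^ (β t).natAbs
        ≤ ∑ β ∈ Fintype.piFinset (fun _ : T => Finset.Icc (-(R : ℤ)) R),
          ∏ t, y t ^ (β t).natAbs := by
      refine Finset.sum_le_sum_of_subset_of_nonneg ?_
        (fun β _ _ => Finset.prod_nonneg (fun t _ => pow_nonneg (hy0 t).le _))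
      intro β hβ
      obtain ⟨s, _, rfl⟩ := mem_image.1 hβ
      rw [Fintype.mem_piFinset]
      intro t
      have h6 : (b s t).natAbs ≤ R := by
        refine le_trans ?_ (Finset.single_le_sum (f := fun s => ∑ t, (b s t).natAbs)
          (fun s _ => Nat.zero_le _) (mem_univ s))
        exact Finset.single_le_sum (f := fun t => (b s t).natAbs) (fun t _ => Nat.zero_le _)
          (mem_univ t)
      rw [mem_Icc]
      omega
    refine h5.trans ?_
    rw [← Finset.prod_univ_sum (fun _ : T => Finset.Icc (-(R : ℤ)) R)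
      (fun t β => y t ^ β.natAbs)]
    have h7 : ∀ t ∈ (univ : Finset T), ∑ β ∈ Finset.Icc (-(R : ℤ)) R, y t ^ β.natAbs
        ≤ Real.exp (3 * y t) := by
      intro t _
      refine (geo_Icc (y t) (hy0 t).le (hy1 t) R).trans ?_
      have h8 := Real.add_one_le_exp (3 * y t)
      have h9 : 0 ≤ 3 * y t ^ (R + 1) := by
        have := hy0 t
        positivity
      linarith
    refine (Finset.prod_le_prod (fun t _ => Finset.sum_nonneg
      (fun β _ => pow_nonneg (hy0 t).le _)) h7).trans ?_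
    rw [← Real.exp_sum]
    refine Real.exp_le_exp.2 ?_
    rw [← Finset.mul_sum]
    have h10 : ∑ t, y t = 1 / 64 * ∑ t, (1 / 2 : ℝ) ^ (L t) := by
      rw [Finset.mul_sum]
      refine Finset.sum_congr rfl (fun t _ => ?_)
      simp only [hy]
      rw [pow_add]
      norm_num
      ring
    rw [h10]
    linarith
  have hA2 : (A : ℝ) ≤ Real.exp (N / 8) * 2 ^ (3 * ((N - 1) / 8)) := by
    have h1 := bsum_le N ((N - 1) / 8) (1 / 8) (by norm_num) (by norm_num)
    rw [← hA] at h1
    refine h1.trans (le_of_eq ?_)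
    rw [pow_mul]
    norm_num
    ring_nf
  have hfin := hlow.trans hup
  have hNpos : (1 : ℝ) ≤ N := by exact_mod_cast hY
  have h1 : (2 : ℝ) ^ N ≤ Real.exp (N * (1 / 1024 + 3 / 64 + 1 / 8)) * 2 ^ (3 * ((N - 1) / 8)) := by
    have h2 : (2 : ℝ) ^ N * Real.exp (-(N / 1024 : ℝ))
        ≤ (Real.exp (N / 8) * 2 ^ (3 * ((N - 1) / 8))) * Real.exp (3 / 64 * N) :=
      hfin.trans (mul_le_mul_of_nonneg_right hA2 (Real.exp_pos _).le)
    have h3 := mul_le_mul_of_nonneg_right h2 (Real.exp_pos (N / 1024 : ℝ)).le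
    rw [mul_assoc, ← Real.exp_add, neg_add_cancel, Real.exp_zero, mul_one] at h3
    refine h3.trans (le_of_eq ?_)
    have h4 : Real.exp (N * (1 / 1024 + 3 / 64 + 1 / 8))
        = Real.exp (N / 8) * Real.exp (3 / 64 * N) * Real.exp (N / 1024) := by
      rw [← Real.exp_add, ← Real.exp_add]
      congr 1
      ring
    rw [h4]
    ring
  have h5 : Real.exp ((N : ℝ) * (1 / 1024 + 3 / 64 + 1 / 8)) < 2 ^ ((N : ℝ) * (5 / 8)) := by
    rw [Real.rpow_def_of_pos (by norm_num)]
    refine Real.exp_lt_exp.2 ?_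
    have := Real.log_two_gt_d9
    nlinarith
  have h6 : (2 : ℝ) ^ (3 * ((N - 1) / 8)) ≤ 2 ^ ((N : ℝ) * (3 / 8)) := by
    rw [← Real.rpow_natCast]
    refine Real.rpow_le_rpow_of_exponent_le (by norm_num) ?_
    have h7 : 8 * (3 * ((N - 1) / 8)) ≤ 3 * N := by omega
    have h8 : (8 : ℝ) * ((3 * ((N - 1) / 8) : ℕ) : ℝ) ≤ 3 * N := by exact_mod_cast h7
    linarith
  have h9 : (2 : ℝ) ^ N = 2 ^ ((N : ℝ) * (5 / 8)) * 2 ^ ((N : ℝ) * (3 / 8)) := by
    rw [← Real.rpow_add (by norm_num), ← Real.rpow_natCast]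
    congr 1
    ring
  have h10 : Real.exp ((N : ℝ) * (1 / 1024 + 3 / 64 + 1 / 8)) * 2 ^ (3 * ((N - 1) / 8))
      < 2 ^ ((N : ℝ) * (5 / 8)) * 2 ^ ((N : ℝ) * (3 / 8)) := by
    calc _ ≤ Real.exp ((N : ℝ) * (1 / 1024 + 3 / 64 + 1 / 8)) * 2 ^ ((N : ℝ) * (3 / 8)) := by
          gcongr
      _ < _ := by
          gcongr
  rw [h9] at h1
  exact absurd h1 (not_le.2 h10)

/-- the colouring of one eighth of the points -/
theorem pcolN (v : T → Y → ℝ) (L : T → ℕ) (rho : T → ℝ) (hr : ∀ t, 0 < rho t)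
    (hY : 0 < Fintype.card Y) (hT : ∑ t, (1 / 2 : ℝ) ^ (L t) ≤ Fintype.card Y)
    (hv : ∀ t, ∑ y, (v t y) ^ 2 ≤ (rho t) ^ 2) :
    ∃ χ : Y → ℝ, (∀ y, χ y = 0 ∨ χ y = 1 ∨ χ y = -1) ∧
      Fintype.card Y ≤ 8 * #((univ : Finset Y).filter (fun y => χ y ≠ 0)) ∧
      ∀ t, |∑ y, χ y * v t y| ≤ ((L t : ℝ) + 6) * rho t := by
  obtain ⟨s, s', hrv, hcard⟩ := two_signsN v L rho hr hY hT hv
  refine ⟨fun y => (sg s y - sg s' y) / 2, ?_, ?_, ?_⟩
  · intro y
    simp only [sg]
    split_ifs <;> norm_num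
  · refine hcard.trans (Nat.mul_le_mul_left _ (Finset.card_le_card ?_))
    intro y hy
    rw [mem_filter]
    refine ⟨mem_univ y, ?_⟩
    rw [mem_symmDiff] at hy
    simp only [sg]
    rcases hy with ⟨h1, h2⟩ | ⟨h1, h2⟩
    · rw [if_pos h1, if_neg h2]
      norm_num
    · rw [if_pos h1, if_neg h2]
      norm_num
  · intro t
    have hrt := hr t
    have hq : 0 < ((L t : ℝ) + 6) * rho t := by positivity
    set q := ((L t : ℝ) + 6) * rho t with hqdef
    have h1 := abs_sub_round ((∑ y, sg s y * v t y) / (2 * q))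
    have h2 := abs_sub_round ((∑ y, sg s' y * v t y) / (2 * q))
    have h3 : round ((∑ y, sg s y * v t y) / (2 * q)) = round ((∑ y, sg s' y * v t y) / (2 * q)) :=
      hrv t
    rw [h3] at h1
    have h4 : ∑ y, (sg s y - sg s' y) / 2 * v t y
        = (∑ y, sg s y * v t y - ∑ y, sg s' y * v t y) / 2 := by
      rw [← Finset.sum_sub_distrib, Finset.sum_div]
      exact Finset.sum_congr rfl (fun y _ => by ring)
    rw [h4]
    set S := ∑ y, sg s y * v t y
    set S' := ∑ y, sg s' y * v t y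
    have h5 : |S / (2 * q) - S' / (2 * q)| ≤ 1 := by
      have := abs_sub_le (S / (2 * q)) (round (S' / (2 * q))) (S' / (2 * q))
      rw [abs_sub_comm (round (S' / (2 * q)) : ℝ)] at this
      linarith
    rw [← sub_div, abs_div, abs_of_pos (by positivity : 0 < 2 * q),
      div_le_one (by positivity)] at h5
    rw [abs_div, abs_of_pos (by norm_num : (0 : ℝ) < 2), div_le_iff₀ (by norm_num)]
    linarith

end Pool.Agent.H12.UBX
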