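import Pool.Agent.H12.UBX.ColN

set_option autoImplicit false
set_option linter.unusedSectionVars false

/-! A colouring of all the points, and the choice of one option in every cell, with one
threshold for every functional. -/

open Finset

namespace Pool.Agent.H12.UBX

open Pool.Agent.H75.MT Pool.Agent.H75.UB

variable {Y T : Type*} [Fintype Y] [DecidableEq Y] [Fintype T] [DecidableEq T]

/-- the points of `U` can be signed with discrepancy `D t` for the functional `t` -/
def ClN (v : T → Y → ℝ) (U : Finset Y) (D : T → ℝ) : Prop :=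
  ∃ σ : Y → ℝ, (∀ y ∈ U, σ y = 1 ∨ σ y = -1) ∧ ∀ t, |∑ y ∈ U, σ y * v t y| ≤ D t

lemma ClN.mono {v : T → Y → ℝ} {U : Finset Y} {D D' : T → ℝ} (h : ClN v U D)
    (hD : ∀ t, D t ≤ D' t) : ClN v U D' := by
  obtain ⟨σ, h1, h2⟩ := h
  exact ⟨σ, h1, fun t => (h2 t).trans (hD t)⟩

lemma clN_empty (v : T → Y → ℝ) (D : T → ℝ) (hD : ∀ t, 0 ≤ D t) : ClN v ∅ D :=
  ⟨fun _ => 1, by simp, by simpa using fun t => hD t⟩

lemma clN_step (v : T → Y → ℝ) (U : Finset Y) (hU : U.Nonempty) (L : T → ℕ) (rho : T → ℝ)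
    (hr : ∀ t, 0 < rho t) (hT : ∑ t, (1 / 2 : ℝ) ^ (L t) ≤ #U)
    (hv : ∀ t, ∑ y ∈ U, (v t y) ^ 2 ≤ (rho t) ^ 2) :
    ∃ U' ⊆ U, 8 * #U' ≤ 7 * #U ∧ ∀ D : T → ℝ, ClN v U' D →
      ClN v U (fun t => ((L t : ℝ) + 6) * rho t + D t) := by
  have hcard : Fintype.card U = #U := Fintype.card_coe U
  have hs : ∀ f : Y → ℝ, ∑ y : U, f y = ∑ y ∈ U, f y := fun f => Finset.sum_coe_sort U f
  obtain ⟨χ, h1, h2, h3⟩ := pcolN (Y := U) (fun t y => v t y) L rho hr
    (by rw [hcard]; exact hU.card_pos) (by rw [hcard]; exact hT)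
    (fun t => by
      have := hs (fun y => v t y ^ 2)
      rw [this]
      exact hv t)
  set χ' : Y → ℝ := fun y => if h : y ∈ U then χ ⟨y, h⟩ else 0 with hχ'
  have hχ1 : ∀ y : U, χ' y = χ y := by
    intro y
    simp only [hχ', dif_pos y.2]
  refine ⟨U.filter (fun y => χ' y = 0), Finset.filter_subset _ _, ?_, ?_⟩
  · have h4 : #((univ : Finset U).filter (fun y => χ y ≠ 0)) ≤ #(U.filter (fun y => ¬ χ' y = 0)) := by
      refine Finset.card_le_card_of_injOn (fun y => (y : Y)) ?_ ?_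
      · intro y hy
        simp only [coe_filter, mem_univ, true_and, Set.mem_ofPred_eq] at hy
        simp only [coe_filter, Set.mem_ofPred_eq]
        exact ⟨y.2, by rw [hχ1]; exact hy⟩
      · intro y _ y' _ h
        exact Subtype.ext h
    have h5 := Finset.card_filter_add_card_filter_not (s := U) (fun y => χ' y = 0)
    rw [hcard] at h2
    omega
  · rintro D ⟨σ, g1, g2⟩
    refine ⟨fun y => if χ' y = 0 then σ y else χ' y, ?_, ?_⟩
    · intro y hy
      by_cases h : χ' y = 0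
      · simp only [if_pos h]
        exact g1 y (Finset.mem_filter.2 ⟨hy, h⟩)
      · simp only [if_neg h]
        have := h1 ⟨y, hy⟩
        have e := hχ1 ⟨y, hy⟩
        simp only at e
        rw [← e] at this
        rcases this with h' | h' | h'
        · exact absurd h' h
        · exact Or.inl h'
        · exact Or.inr h'
    · intro t
      have e1 : ∑ y ∈ U, (if χ' y = 0 then σ y else χ' y) * v t y
          = ∑ y ∈ U, χ' y * v t y + ∑ y ∈ U.filter (fun y => χ' y = 0), σ y * v t y := by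
        rw [Finset.sum_filter, ← Finset.sum_add_distrib]
        refine Finset.sum_congr rfl (fun y _ => ?_)
        split_ifs with h
        · rw [h]
          ring
        · ring
      rw [e1]
      refine (abs_add_le _ _).trans (add_le_add ?_ (g2 t))
      have e2 := hs (fun y => χ' y * v t y)
      rw [← e2]
      have e3 : ∑ y : U, χ' y * v t y = ∑ y : U, χ y * v t y :=
        Finset.sum_congr rfl (fun y _ => by rw [hχ1])
      rw [e3]
      exact h3 t

/-- the bound of the norm at the stage `n` -/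
noncomputable def rhN (L n : ℕ) : ℝ := min 1 (2 ^ L * (15 / 16) ^ n)

lemma rhN_pos (L n : ℕ) : 0 < rhN L n := lt_min one_pos (by positivity)

lemma rhN_sq (L n : ℕ) (x : ℝ) (h1 : x ≤ 1) (h2 : x ≤ 2 ^ L * (7 / 8) ^ n) : x ≤ (rhN L n) ^ 2 := by
  unfold rhN
  rcases le_total 1 ((2 : ℝ) ^ L * (15 / 16) ^ n) with h | h
  · rw [min_eq_left h]
    simpa using h1
  · rw [min_eq_right h]
    refine h2.trans ?_
    have e1 : (1 : ℝ) ≤ 2 ^ L := one_le_pow₀ (by norm_num)
    have e2 : ((7 : ℝ) / 8) ^ n ≤ ((15 / 16) ^ n) ^ 2 := by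
      rw [← pow_mul, mul_comm n 2, pow_mul]
      gcongr
      norm_num
    calc (2 : ℝ) ^ L * (7 / 8) ^ n ≤ 2 ^ L * ((15 / 16) ^ n) ^ 2 := by gcongr
      _ ≤ (2 ^ L * 2 ^ L) * ((15 / 16) ^ n) ^ 2 := by
          refine mul_le_mul_of_nonneg_right ?_ (by positivity)
          nlinarith
      _ = _ := by ring

/-- the discrepancy of the stages `n, ..., R - 1` -/
noncomputable def DN (L n R : ℕ) : ℝ := ∑ k ∈ Finset.Ico n R, ((L : ℝ) + k + 7) * rhN L k

lemma DN_nonneg (L n R : ℕ) : 0 ≤ DN L n R :=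
  Finset.sum_nonneg (fun k _ => mul_nonneg (by positivity) (rhN_pos L k).le)

lemma DN_anti (L : ℕ) {n n' R : ℕ} (h : n ≤ n') : DN L n' R ≤ DN L n R :=
  Finset.sum_le_sum_of_subset_of_nonneg (Finset.Ico_subset_Ico_left h)
    (fun k _ _ => mul_nonneg (by positivity) (rhN_pos L k).le)

lemma DN_step (L n R : ℕ) (h : n < R) :
    (((L + n + 1 : ℕ) : ℝ) + 6) * rhN L n + DN L (n + 1) R = DN L n R := by
  unfold DN
  rw [Finset.sum_eq_sum_Ico_succ_bot h]
  push_cast
  ring

lemma clN_main (v : T → Y → ℝ) (L : T → ℕ) (hY : 0 < Fintype.card Y)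
    (hT : ∑ t, (1 / 2 : ℝ) ^ (L t) ≤ Fintype.card Y)
    (h2 : ∀ t, ∑ y, (v t y) ^ 2 ≤ 1)
    (hs : ∀ t y, (v t y) ^ 2 * Fintype.card Y ≤ 2 ^ (L t)) (R : ℕ)
    (hR : (7 / 8 : ℝ) ^ R * Fintype.card Y < 1) :
    ∀ k : ℕ, ∀ U : Finset Y, #U ≤ k → ∀ r : ℕ,
      (#U : ℝ) ≤ (7 / 8) ^ r * Fintype.card Y → ClN v U (fun t => DN (L t) r R) := by
  have hYr : (0 : ℝ) < Fintype.card Y := by exact_mod_cast hY
  intro k
  induction k with
  | zero =>
    intro U hU r _
    have : U = ∅ := by
      rw [← Finset.card_eq_zero]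
      omega
    rw [this]
    exact clN_empty v _ (fun t => DN_nonneg _ r R)
  | succ k ih =>
    intro U hU r hr
    rcases U.eq_empty_or_nonempty with rfl | hne
    · exact clN_empty v _ (fun t => DN_nonneg _ r R)
    have hU1 : 1 ≤ #U := hne.card_pos
    have hUr : (1 : ℝ) ≤ #U := by exact_mod_cast hU1
    obtain ⟨n, hn1, hn2⟩ := exists_nat_pow_near_of_lt_one
      (x := (#U : ℝ) / Fintype.card Y) (y := 7 / 8) (by positivity) (by
        rw [div_le_one hYr]
        refine hr.trans ?_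
        have : ((7 : ℝ) / 8) ^ r ≤ 1 := pow_le_one₀ (by norm_num) (by norm_num)
        nlinarith) (by norm_num) (by norm_num)
    rw [lt_div_iff₀ hYr] at hn1
    rw [div_le_iff₀ hYr] at hn2
    have hrn : r ≤ n := by
      by_contra hcon
      have h1 : n + 1 ≤ r := by omega
      have h2 : ((7 : ℝ) / 8) ^ r ≤ (7 / 8) ^ (n + 1) :=
        pow_le_pow_of_le_one (by norm_num) (by norm_num) h1
      have h3 : ((7 : ℝ) / 8) ^ r * Fintype.card Y ≤ (7 / 8) ^ (n + 1) * Fintype.card Y := by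
        gcongr
      linarith
    have hnR : n < R := by
      by_contra hcon
      have h2 : ((7 : ℝ) / 8) ^ n ≤ (7 / 8) ^ R :=
        pow_le_pow_of_le_one (by norm_num) (by norm_num) (not_lt.1 hcon)
      have h3 : ((7 : ℝ) / 8) ^ n * Fintype.card Y ≤ (7 / 8) ^ R * Fintype.card Y := by
        gcongr
      linarith
    obtain ⟨U', hU', hc, hstep⟩ := clN_step v U hne (fun t => L t + n + 1)
      (fun t => rhN (L t) n) (fun t => rhN_pos _ _)
      (by
        have h1 : (Fintype.card Y : ℝ) * (1 / 2) ^ (n + 1) ≤ #U := by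
          refine le_trans ?_ hn1.le
          rw [mul_comm]
          have h0 : ((1 : ℝ) / 2) ^ (n + 1) ≤ (7 / 8) ^ (n + 1) :=
            pow_le_pow_left₀ (by norm_num) (by norm_num) _
          exact mul_le_mul_of_nonneg_right h0 hYr.le
        refine le_trans ?_ h1
        calc ∑ t, (1 / 2 : ℝ) ^ (L t + n + 1) = (∑ t, (1 / 2 : ℝ) ^ (L t)) * (1 / 2) ^ (n + 1) := by
              rw [Finset.sum_mul]
              exact Finset.sum_congr rfl (fun t _ => by rw [add_assoc, pow_add])
          _ ≤ _ := by gcongr)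
      (by
        intro t
        refine rhN_sq _ _ _ ?_ ?_
        · exact (Finset.sum_le_sum_of_subset_of_nonneg (Finset.subset_univ U)
            (fun y _ _ => sq_nonneg _)).trans (h2 t)
        · have h1 : ∑ y ∈ U, (v t y) ^ 2 ≤ ∑ y ∈ U, 2 ^ (L t) / (Fintype.card Y : ℝ) := by
            refine Finset.sum_le_sum (fun y _ => ?_)
            rw [le_div_iff₀ hYr]
            exact hs t y
          rw [Finset.sum_const, nsmul_eq_mul] at h1
          refine h1.trans ?_
          rw [mul_div_assoc', div_le_iff₀ hYr]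
          have h3 : (0 : ℝ) < 2 ^ (L t) := by positivity
          nlinarith)
    have h4 : ClN v U' (fun t => DN (L t) (n + 1) R) := by
      refine ih U' ?_ (n + 1) ?_
      · have : 8 * #U' ≤ 7 * #U := hc
        omega
      · have h5 : (8 : ℝ) * #U' ≤ 7 * #U := by exact_mod_cast hc
        rw [pow_succ]
        nlinarith
    refine (hstep _ h4).mono (fun t => ?_)
    have h7 := DN_step (L t) n R hnR
    push_cast at h7 ⊢
    rw [h7]
    exact DN_anti (L t) hrn

lemma geo_tail (a : ℝ) (ha : 0 ≤ a) (K : ℕ) :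
    ∑ k ∈ Finset.range K, (a + k) * (15 / 16 : ℝ) ^ k ≤ 16 * a + 240 := by
  have h : ∀ K : ℕ, ∑ k ∈ Finset.range K, (a + k) * (15 / 16 : ℝ) ^ k
      = 16 * a + 240 - 16 * (15 / 16) ^ K * (a + K + 15) := by
    intro K
    induction K with
    | zero =>
      simp
      ring
    | succ K ih =>
      rw [Finset.sum_range_succ, ih, pow_succ]
      push_cast
      ring
  rw [h]
  have : (0 : ℝ) ≤ 16 * (15 / 16) ^ K * (a + K + 15) := by positivity
  linarith

lemma DN_bound (L R : ℕ) : DN L 0 R ≤ 132 * ((L : ℝ) + 6) ^ 2 := by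
  have h1 : DN L 0 R ≤ DN L 0 (11 * L + R) :=
    Finset.sum_le_sum_of_subset_of_nonneg (Finset.Ico_subset_Ico_right (by omega))
      (fun k _ _ => mul_nonneg (by positivity) (rhN_pos L k).le)
  refine h1.trans ?_
  unfold DN
  rw [← Finset.range_eq_Ico, Finset.sum_range_add]
  have h2 : ∑ k ∈ Finset.range (11 * L), ((L : ℝ) + k + 7) * rhN L k
      ≤ (11 * L : ℕ) * (12 * (L : ℝ) + 7) := by
    have h3 : ∀ k ∈ Finset.range (11 * L), ((L : ℝ) + k + 7) * rhN L k ≤ 12 * (L : ℝ) + 7 := by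
      intro k hk
      have hk' : (k : ℝ) ≤ 11 * L := by
        have := (Finset.mem_range.1 hk).le
        exact_mod_cast this
      have h4 : rhN L k ≤ 1 := min_le_left _ _
      have h5 := (rhN_pos L k).le
      have h6 : (0 : ℝ) ≤ (L : ℝ) + k + 7 := by positivity
      nlinarith
    refine (Finset.sum_le_sum h3).trans ?_
    rw [Finset.sum_const, Finset.card_range, nsmul_eq_mul]
  have h7 : ∑ x ∈ Finset.range R, ((L : ℝ) + ((11 * L + x : ℕ) : ℝ) + 7) * rhN L (11 * L + x)
      ≤ 16 * (12 * (L : ℝ) + 7) + 240 := by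
    refine le_trans (Finset.sum_le_sum (fun k _ => ?_)) (geo_tail (12 * L + 7) (by positivity) R)
    have h8 : rhN L (11 * L + k) ≤ (15 / 16) ^ k := by
      refine (min_le_right _ _).trans ?_
      rw [pow_add, pow_mul, ← mul_assoc, ← mul_pow]
      have h9 : ((2 : ℝ) * (15 / 16) ^ 11) ^ L ≤ 1 := pow_le_one₀ (by positivity) (by norm_num)
      have h10 : (0 : ℝ) ≤ (15 / 16) ^ k := by positivity
      nlinarith
    push_cast
    have h11 : ((L : ℝ) + (11 * L + k) + 7) = 12 * L + 7 + k := by ring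
    rw [h11]
    exact mul_le_mul_of_nonneg_left h8 (by positivity)
  push_cast at h2
  have h0 : (0 : ℝ) ≤ L := by positivity
  calc _ ≤ (11 * (L : ℝ)) * (12 * L + 7) + (16 * (12 * (L : ℝ) + 7) + 240) := add_le_add h2 h7
    _ ≤ _ := by nlinarith

/-- all the points can be signed -/
theorem fullN (v : T → Y → ℝ) (L : T → ℕ) (hT : ∑ t, (1 / 2 : ℝ) ^ (L t) ≤ Fintype.card Y)
    (h2 : ∀ t, ∑ y, (v t y) ^ 2 ≤ 1)
    (hs : ∀ t y, (v t y) ^ 2 * Fintype.card Y ≤ 2 ^ (L t)) :
    ∃ σ : Y → ℝ, (∀ y, σ y = 1 ∨ σ y = -1) ∧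
      ∀ t, |∑ y, σ y * v t y| ≤ 132 * ((L t : ℝ) + 6) ^ 2 := by
  rcases Nat.eq_zero_or_pos (Fintype.card Y) with h0 | hY
  · have : IsEmpty Y := Fintype.card_eq_zero_iff.1 h0
    refine ⟨fun _ => 1, by simp, fun t => ?_⟩
    simp
    positivity
  have hYr : (0 : ℝ) < Fintype.card Y := by exact_mod_cast hY
  obtain ⟨R, hR⟩ := exists_pow_lt_of_lt_one (x := 1 / (Fintype.card Y : ℝ)) (by positivity)
    (by norm_num : (7 / 8 : ℝ) < 1)
  rw [lt_div_iff₀ hYr] at hR
  obtain ⟨σ, g1, g2⟩ := clN_main v L hY hT h2 hs R hR #(univ : Finset Y) univ le_rfl 0 (by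
    rw [Finset.card_univ]
    simp)
  exact ⟨σ, fun y => g1 y (mem_univ y), fun t => (g2 t).trans (DN_bound (L t) R)⟩

/-- the choice of one option in every cell -/
theorem optionsN {K : Type*} [Fintype K] [DecidableEq K] (L : T → ℕ)
    (hT : ∑ t, (1 / 2 : ℝ) ^ (L t) ≤ Fintype.card K) (F : T → K → ℝ)
    (rr : T → ℝ) (hr : ∀ t, 0 < rr t) (h2 : ∀ t, ∑ k, (F t k) ^ 2 ≤ (rr t) ^ 2)
    (hsup : ∀ t k, (F t k) ^ 2 * Fintype.card K ≤ 2 ^ (L t) * (rr t) ^ 2) :
    ∀ (J : ℕ) (A : Type) [Fintype A], Fintype.card A = 2 ^ J → ∀ Φ : T → K → A → ℝ,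
      (∀ t k a a', |Φ t k a - Φ t k a'| ≤ 2 * F t k) →
      ∃ f : K → A, ∀ t, |∑ k, Φ t k (f k) - (1 / 2 ^ J) * ∑ k, ∑ a, Φ t k a|
        ≤ 132 * ((L t : ℝ) + 6) ^ 2 * rr t * hs J := by
  intro J
  induction J with
  | zero =>
    intro A _ hA Φ _
    have hA' : Fintype.card A = 1 := by simpa using hA
    obtain ⟨a, ha⟩ := Fintype.card_eq_one_iff.1 hA'
    refine ⟨fun _ => a, fun t => ?_⟩
    have h1 : ∀ k, ∑ b, Φ t k b = Φ t k a := by
      intro k
      have : (univ : Finset A) = {a} := by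
        ext b
        simp [ha b]
      rw [this, Finset.sum_singleton]
    simp only [h1]
    simp [hs]
  | succ J ih =>
    intro A _ hA Φ hΦ
    have e : A ≃ Bool × (Fin (2 ^ J)) := by
      refine Fintype.equivOfCardEq ?_
      rw [hA, Fintype.card_prod, Fintype.card_bool, Fintype.card_fin, pow_succ]
      ring
    set w : T → K × Fin (2 ^ J) → ℝ := fun t p =>
      (Φ t p.1 (e.symm (true, p.2)) - Φ t p.1 (e.symm (false, p.2))) / 2 with hw
    have hwF : ∀ t p, (w t p) ^ 2 ≤ (F t p.1) ^ 2 := by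
      intro t p
      have h3 := hΦ t p.1 (e.symm (true, p.2)) (e.symm (false, p.2))
      have h4 : |w t p| ≤ F t p.1 := by
        rw [hw]
        simp only
        rw [abs_div, abs_of_pos (by norm_num : (0 : ℝ) < 2), div_le_iff₀ (by norm_num)]
        linarith
      have h5 := abs_nonneg (w t p)
      rw [← sq_abs]
      gcongr
    have hsq : (Real.sqrt (2 ^ J)) ^ 2 = 2 ^ J := Real.sq_sqrt (by positivity)
    have hsq0 : 0 < Real.sqrt (2 ^ J) := by positivity
    obtain ⟨σ, g1, g2⟩ := fullN (Y := K × Fin (2 ^ J)) (T := T)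
      (fun t p => w t p / (Real.sqrt (2 ^ J) * rr t)) L
      (by
        rw [Fintype.card_prod, Fintype.card_fin]
        push_cast
        have : (1 : ℝ) ≤ 2 ^ J := one_le_pow₀ (by norm_num)
        have h6 : (0 : ℝ) ≤ Fintype.card K := by positivity
        nlinarith)
      (by
        intro t
        have hr' := hr t
        have h7 : ∑ p : K × Fin (2 ^ J), (w t p / (Real.sqrt (2 ^ J) * rr t)) ^ 2
            = (∑ p : K × Fin (2 ^ J), (w t p) ^ 2) / (2 ^ J * rr t ^ 2) := by
          rw [Finset.sum_div]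
          refine Finset.sum_congr rfl (fun p _ => ?_)
          rw [div_pow, mul_pow, hsq]
        rw [h7, div_le_one (by positivity)]
        refine (Finset.sum_le_sum (fun p _ => hwF t p)).trans ?_
        rw [Fintype.sum_prod_type]
        simp only [Finset.sum_const, Finset.card_univ, Fintype.card_fin, nsmul_eq_mul]
        rw [← Finset.mul_sum]
        push_cast
        exact mul_le_mul_of_nonneg_left (h2 t) (by positivity))
      (by
        intro t p
        have hr' := hr t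
        rw [div_pow, mul_pow, hsq, Fintype.card_prod, Fintype.card_fin]
        push_cast
        rw [div_mul_eq_mul_div, div_le_iff₀ (by positivity)]
        have h8 := hsup t p.1
        have h9 := hwF t p
        have h10 : (0 : ℝ) ≤ Fintype.card K := by positivity
        have h11 : (w t p) ^ 2 * Fintype.card K ≤ 2 ^ (L t) * rr t ^ 2 :=
          (mul_le_mul_of_nonneg_right h9 h10).trans h8
        have h12 : (0 : ℝ) < 2 ^ J := by positivity
        calc w t p ^ 2 * ((Fintype.card K : ℝ) * 2 ^ J)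
            = (w t p ^ 2 * Fintype.card K) * 2 ^ J := by ring
          _ ≤ (2 ^ (L t) * rr t ^ 2) * 2 ^ J := by gcongr
          _ = 2 ^ (L t) * (2 ^ J * rr t ^ 2) := by ring)
    set Φ' : T → K → Fin (2 ^ J) → ℝ := fun t k a =>
      Φ t k (e.symm (decide (σ (k, a) = 1), a)) with hΦ'
    obtain ⟨f, hf⟩ := ih (Fin (2 ^ J)) (by simp) Φ' (fun t k a a' => hΦ t k _ _)
    refine ⟨fun k => e.symm (decide (σ (k, f k) = 1), f k), fun t => ?_⟩
    set lam : ℝ := 132 * ((L t : ℝ) + 6) ^ 2 with hlam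
    have hr' := hr t
    have hval : ∀ k a, Φ' t k a = (Φ t k (e.symm (true, a)) + Φ t k (e.symm (false, a))) / 2
        + σ (k, a) * w t (k, a) := by
      intro k a
      simp only [hΦ', hw]
      rcases g1 (k, a) with h | h
      · rw [h]
        simp
        ring
      · rw [h]
        have : ¬ ((-1 : ℝ) = 1) := by norm_num
        simp [this]
        ring
    have hsum : ∀ k, ∑ a, Φ t k a = ∑ a : Fin (2 ^ J), (Φ t k (e.symm (true, a))
        + Φ t k (e.symm (false, a))) := by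
      intro k
      rw [← Equiv.sum_comp e.symm, Fintype.sum_prod_type, Fintype.sum_bool,
        ← Finset.sum_add_distrib]
    have havg : (1 / 2 ^ J) * ∑ k, ∑ a, Φ' t k a - (1 / 2 ^ (J + 1)) * ∑ k, ∑ a, Φ t k a
        = (1 / 2 ^ J) * (Real.sqrt (2 ^ J) * rr t)
          * ∑ p : K × Fin (2 ^ J), σ p * (w t p / (Real.sqrt (2 ^ J) * rr t)) := by
      have e1 : ∑ p : K × Fin (2 ^ J), σ p * (w t p / (Real.sqrt (2 ^ J) * rr t))
          = (∑ k, ∑ a, σ (k, a) * w t (k, a)) / (Real.sqrt (2 ^ J) * rr t) := by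
        rw [Fintype.sum_prod_type, Finset.sum_div]
        refine Finset.sum_congr rfl (fun k _ => ?_)
        rw [Finset.sum_div]
        exact Finset.sum_congr rfl (fun a _ => by ring)
      rw [e1]
      simp only [hval, hsum, Finset.sum_add_distrib]
      have e2 : ∀ g h : K → Fin (2 ^ J) → ℝ, ∑ k, ∑ a, (g k a + h k a) / 2
          = (∑ k, ∑ a, g k a + ∑ k, ∑ a, h k a) / 2 := by
        intro g h
        rw [← Finset.sum_add_distrib, Finset.sum_div]
        refine Finset.sum_congr rfl (fun k _ => ?_)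
        rw [← Finset.sum_add_distrib, Finset.sum_div]
      rw [e2]
      have h13 : Real.sqrt (2 ^ J) * rr t ≠ 0 := by positivity
      rw [pow_succ]
      field_simp
      ring
    have hmain : |(1 / 2 ^ J) * ∑ k, ∑ a, Φ' t k a - (1 / 2 ^ (J + 1)) * ∑ k, ∑ a, Φ t k a|
        ≤ lam * rr t * (1 / Real.sqrt 2) ^ J := by
      rw [havg, abs_mul, abs_of_pos (by positivity : 0 < 1 / (2 : ℝ) ^ J * (Real.sqrt (2 ^ J) * rr t))]
      have h14 : 1 / (2 : ℝ) ^ J * (Real.sqrt (2 ^ J) * rr t) = (1 / Real.sqrt 2) ^ J * rr t := by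
        have h15 : Real.sqrt (2 ^ J) = (Real.sqrt 2) ^ J := by
          rw [Real.sqrt_eq_iff_mul_self_eq (by positivity) (by positivity), ← mul_pow,
            Real.mul_self_sqrt (by norm_num)]
        have h16 : (2 : ℝ) ^ J = (Real.sqrt 2) ^ J * (Real.sqrt 2) ^ J := by
          rw [← mul_pow, Real.mul_self_sqrt (by norm_num)]
        rw [h15, h16, one_div_pow]
        field_simp
      rw [h14]
      calc (1 / Real.sqrt 2) ^ J * rr t * |∑ p, σ p * (w t p / (Real.sqrt (2 ^ J) * rr t))|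
          ≤ (1 / Real.sqrt 2) ^ J * rr t * lam := by
            refine mul_le_mul_of_nonneg_left (g2 t) (by positivity)
        _ = lam * rr t * (1 / Real.sqrt 2) ^ J := by ring
    have hf' := hf t
    have e3 : ∑ k, Φ' t k (f k) = ∑ k, Φ t k (e.symm (decide (σ (k, f k) = 1), f k)) := rfl
    rw [e3] at hf'
    have h17 : hs (J + 1) = hs J + (1 / Real.sqrt 2) ^ J := by
      unfold hs
      rw [Finset.sum_range_succ]
    rw [h17, mul_add]
    calc _ = |(∑ k, Φ t k (e.symm (decide (σ (k, f k) = 1), f k))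
          - 1 / 2 ^ J * ∑ k, ∑ a, Φ' t k a)
          + (1 / 2 ^ J * ∑ k, ∑ a, Φ' t k a - 1 / 2 ^ (J + 1) * ∑ k, ∑ a, Φ t k a)| := by
          congr 1
          ring
      _ ≤ _ := (abs_add_le _ _).trans (add_le_add hf' hmain)

end Pool.Agent.H12.UBX
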