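import Pool.Agent.H75.UB.Arc

set_option autoImplicit false
set_option linter.unusedSectionVars false

/-! The cyclic group `ZMod (2 ^ J)`: circular norms, counting, sums of weights. -/

open Finset

namespace Pool.Agent.H12.UBX

variable {J : ℕ}

/-- the circular norm -/
def cn (a : ZMod (2 ^ J)) : ℕ := a.valMinAbs.natAbs

lemma cn_neg (a : ZMod (2 ^ J)) : cn (-a) = cn a := ZMod.natAbs_valMinAbs_neg a

lemma cn_add_le (a b : ZMod (2 ^ J)) : cn (a + b) ≤ cn a + cn b :=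
  (ZMod.natAbs_valMinAbs_add_le a b).trans (Int.natAbs_add_le _ _)

lemma cn_sub_le (a b : ZMod (2 ^ J)) : cn (a - b) ≤ cn a + cn b := by
  rw [sub_eq_add_neg]
  exact (cn_add_le a (-b)).trans (by rw [cn_neg])

lemma cn_zero : cn (0 : ZMod (2 ^ J)) = 0 := by simp [cn]

lemma cn_eq_zero {a : ZMod (2 ^ J)} : cn a = 0 ↔ a = 0 := by
  unfold cn
  rw [Int.natAbs_eq_zero, ZMod.valMinAbs_eq_zero]

lemma cn_le (a : ZMod (2 ^ J)) : cn a ≤ 2 ^ J := by
  refine (ZMod.natAbs_valMinAbs_le a).trans ?_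
  exact Nat.div_le_self _ _

/-- the shell of a distance -/
def kd (x : ℕ) : ℕ := Nat.log 2 (x + 1)

/-- the shell of a frequency -/
def jd (g : ℕ) (h : ZMod (2 ^ J)) : ℕ := Nat.log 2 (cn h / 2 ^ g)

lemma kd_lt (x : ℕ) : x + 1 < 2 ^ (kd x + 1) := Nat.lt_pow_succ_log_self (by norm_num) _

lemma kd_le {x k : ℕ} (h : x + 1 < 2 ^ (k + 1)) : kd x ≤ k := by
  unfold kd
  exact Nat.lt_succ_iff.1 (Nat.log_lt_of_lt_pow (by omega) h)

lemma kd_add {x y k : ℕ} (hx : kd x ≤ k) (hy : kd y ≤ k) : kd (x + y) ≤ k + 1 := by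
  refine kd_le ?_
  have h1 := kd_lt x
  have h2 := kd_lt y
  have h3 : 2 ^ (kd x + 1) ≤ 2 ^ (k + 1) := Nat.pow_le_pow_right (by norm_num) (by omega)
  have h4 : 2 ^ (kd y + 1) ≤ 2 ^ (k + 1) := Nat.pow_le_pow_right (by norm_num) (by omega)
  have h5 : 2 ^ (k + 1 + 1) = 2 * 2 ^ (k + 1) := by rw [pow_succ]; ring
  omega

lemma kd_mono {x y : ℕ} (h : x ≤ y) : kd x ≤ kd y := Nat.log_mono_right (by omega)

lemma cn_lt_jd (g : ℕ) (h : ZMod (2 ^ J)) : cn h < 2 ^ (jd g h + 1 + g) := by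
  have h1 : cn h / 2 ^ g < 2 ^ (jd g h + 1) := Nat.lt_pow_succ_log_self (by norm_num) _
  rw [Nat.div_lt_iff_lt_mul (by positivity)] at h1
  rw [pow_add]
  exact h1

lemma jd_le {g j : ℕ} {h : ZMod (2 ^ J)} (hh : cn h < 2 ^ (j + 1 + g)) : jd g h ≤ j := by
  unfold jd
  rcases Nat.eq_zero_or_pos (cn h / 2 ^ g) with h0 | h0
  · rw [h0]
    simp
  · refine Nat.lt_succ_iff.1 (Nat.log_lt_of_lt_pow (by omega) ?_)
    rw [Nat.div_lt_iff_lt_mul (by positivity), ← pow_add]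
    exact hh

lemma jd_sub {g j : ℕ} {h h' : ZMod (2 ^ J)} (h1 : jd g h ≤ j) (h2 : jd g h' ≤ j) :
    jd g (h - h') ≤ j + 1 := by
  refine jd_le ?_
  have e1 := cn_lt_jd g h
  have e2 := cn_lt_jd g h'
  have e3 := cn_sub_le h h'
  have e4 : 2 ^ (jd g h + 1 + g) ≤ 2 ^ (j + 1 + g) := Nat.pow_le_pow_right (by norm_num) (by omega)
  have e5 : 2 ^ (jd g h' + 1 + g) ≤ 2 ^ (j + 1 + g) := Nat.pow_le_pow_right (by norm_num) (by omega)
  have e6 : 2 ^ (j + 1 + 1 + g) = 2 * 2 ^ (j + 1 + g) := by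
    rw [show j + 1 + 1 + g = (j + 1 + g) + 1 by ring, pow_succ]
    ring
  omega

lemma jd_lt (g : ℕ) (h : ZMod (2 ^ J)) : jd g h ≤ J := by
  unfold jd
  have h1 : cn h / 2 ^ g ≤ 2 ^ J := (Nat.div_le_self _ _).trans (cn_le h)
  calc Nat.log 2 (cn h / 2 ^ g) ≤ Nat.log 2 (2 ^ J) := Nat.log_mono_right h1
    _ = J := Nat.log_pow (by norm_num) J

lemma kd_lt' (z : ZMod (2 ^ J)) : kd (cn z) ≤ J + 1 := by
  refine kd_le ?_
  have h1 := cn_le z
  have h2 : 2 ^ (J + 1 + 1) = 4 * 2 ^ J := by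
    rw [pow_succ, pow_succ]
    ring
  have h3 : 0 < 2 ^ J := by positivity
  omega

/-! ### counting -/

lemma card_cn_lt (X : ℕ) : #((univ : Finset (ZMod (2 ^ J))).filter (fun z => cn z < X)) ≤ 2 * X := by
  refine (Finset.card_le_card_of_injOn (t := Finset.Ioo (-(X : ℤ)) X)
    (fun z => z.valMinAbs) ?_ (fun a _ b _ h => ZMod.injective_valMinAbs h)).trans ?_
  · intro z hz
    simp only [coe_filter, mem_univ, true_and, Set.mem_ofPred_eq] at hz
    simp only [coe_Ioo, Set.mem_Ioo]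
    unfold cn at hz
    omega
  · rw [Int.card_Ioo]
    omega

/-- sum over the elements of the circular group -/
lemma sum_cn (F : ℕ → ℝ) (hF : ∀ n, 0 ≤ F n) (X : ℕ) :
    ∑ h ∈ (univ : Finset (ZMod (2 ^ J))).filter (fun h => h ≠ 0 ∧ cn h ≤ X), F (cn h)
      ≤ 2 * ∑ n ∈ Finset.Ioc 0 X, F n := by
  have h1 : ∑ h ∈ (univ : Finset (ZMod (2 ^ J))).filter (fun h => h ≠ 0 ∧ cn h ≤ X), F (cn h)
      = ∑ n ∈ Finset.Ioc 0 X, ∑ h ∈ ((univ : Finset (ZMod (2 ^ J))).filter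
          (fun h => h ≠ 0 ∧ cn h ≤ X)).filter (fun h => cn h = n), F (cn h) := by
    refine (Finset.sum_fiberwise_of_maps_to ?_ _).symm
    intro h hh
    rw [mem_filter] at hh
    rw [mem_Ioc]
    refine ⟨Nat.pos_of_ne_zero (fun h0 => hh.2.1 (cn_eq_zero.1 h0)), hh.2.2⟩
  rw [h1, Finset.mul_sum]
  refine Finset.sum_le_sum (fun n _ => ?_)
  have h2 : ∀ h ∈ ((univ : Finset (ZMod (2 ^ J))).filter
      (fun h => h ≠ 0 ∧ cn h ≤ X)).filter (fun h => cn h = n), F (cn h) = F n := by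
    intro h hh
    rw [mem_filter] at hh
    rw [hh.2]
  rw [Finset.sum_congr rfl h2, Finset.sum_const, nsmul_eq_mul]
  have h3 : #(((univ : Finset (ZMod (2 ^ J))).filter
      (fun h => h ≠ 0 ∧ cn h ≤ X)).filter (fun h => cn h = n)) ≤ 2 := by
    refine (Finset.card_le_card_of_injOn (t := ({(n : ℤ), -(n : ℤ)} : Finset ℤ))
      (fun z => z.valMinAbs) ?_ (fun a _ b _ h => ZMod.injective_valMinAbs h)).trans ?_
    · intro z hz
      simp only [coe_filter, Set.mem_ofPred_eq] at hz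
      have h4 := hz.2
      unfold cn at h4
      simp only [coe_insert, coe_singleton, Set.mem_insert_iff, Set.mem_singleton_iff]
      omega
    · exact Finset.card_le_two
  have h4 : ((#(((univ : Finset (ZMod (2 ^ J))).filter
      (fun h => h ≠ 0 ∧ cn h ≤ X)).filter (fun h => cn h = n)) : ℕ) : ℝ) ≤ 2 := by
    exact_mod_cast h3
  exact mul_le_mul_of_nonneg_right h4 (hF n)

lemma gcd_sum_log (X : ℕ) :
    ∑ n ∈ Finset.Ioc 0 X, Nat.gcd n (2 ^ J) ≤ (Nat.log 2 X + 1) * X := by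
  refine le_trans (Finset.sum_le_sum (fun n hn => ?_))
    (Pool.Agent.H75.UB.gcd_sum (Nat.log 2 X) X)
  rw [mem_Ioc] at hn
  obtain ⟨v, hv, hv2⟩ := (Nat.dvd_prime_pow Nat.prime_two).1 (Nat.gcd_dvd_right n (2 ^ J))
  have h1 : 2 ^ v ∣ n := hv2 ▸ Nat.gcd_dvd_left n (2 ^ J)
  have h2 : 2 ^ v ≤ X := (Nat.le_of_dvd hn.1 h1).trans hn.2
  have h3 : v ≤ Nat.log 2 X := Nat.le_log_of_pow_le (by norm_num) h2
  rw [hv2]
  refine Nat.le_of_dvd (Nat.gcd_pos_of_pos_left _ hn.1) (Nat.dvd_gcd h1 ?_)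
  exact pow_dvd_pow 2 h3

/-- the greatest common divisor -/
def gc (h : ZMod (2 ^ J)) : ℕ := Nat.gcd (cn h) (2 ^ J)

lemma mul_eq_zero_iff (h b : ZMod (2 ^ J)) : h * b = 0 ↔ 2 ^ J ∣ cn h * b.val := by
  have e1 : ((cn h : ℕ) : ZMod (2 ^ J)) = h ∨ ((cn h : ℕ) : ZMod (2 ^ J)) = -h := by
    unfold cn
    rw [ZMod.natCast_natAbs_valMinAbs]
    split_ifs
    · exact Or.inl rfl
    · exact Or.inr rfl
  have e2 : ((b.val : ℕ) : ZMod (2 ^ J)) = b := ZMod.natCast_zmod_val b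
  rw [← ZMod.natCast_eq_zero_iff]
  push_cast
  rw [e2]
  rcases e1 with h1 | h1
  · rw [h1]
  · rw [h1, neg_mul, neg_eq_zero]

lemma card_ker (h : ZMod (2 ^ J)) :
    #((univ : Finset (ZMod (2 ^ J))).filter (fun b => h * b = 0)) ≤ gc h := by
  set m := gc h with hm
  have hm0 : 0 < m := Nat.gcd_pos_of_pos_right _ (by positivity)
  obtain ⟨c, hc⟩ : m ∣ 2 ^ J := Nat.gcd_dvd_right _ _
  have hc0 : 0 < c := by
    rcases Nat.eq_zero_or_pos c with h0 | h0
    · rw [h0, mul_zero] at hc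
      have : 0 < 2 ^ J := by positivity
      omega
    · exact h0
  refine (Finset.card_le_card_of_injOn (t := Finset.range m) (fun b => b.val / c) ?_ ?_).trans
    (le_of_eq (Finset.card_range m))
  · intro b _
    simp only [coe_range, Set.mem_Iio]
    rw [Nat.div_lt_iff_lt_mul hc0, ← hc]
    exact ZMod.val_lt b
  · have hdiv : ∀ b : ZMod (2 ^ J), h * b = 0 → c ∣ b.val := by
      intro b hb
      rw [mul_eq_zero_iff] at hb
      have h1 : c ∣ (cn h / m) * b.val := by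
        have h2 : m * c ∣ m * ((cn h / m) * b.val) := by
          have hmd : m ∣ cn h := Nat.gcd_dvd_left _ _
          rw [← hc, ← mul_assoc, Nat.mul_div_cancel' hmd]
          exact hb
        exact Nat.dvd_of_mul_dvd_mul_left hm0 h2
      have h3 : Nat.Coprime c (cn h / m) := by
        have h4 := Nat.coprime_div_gcd_div_gcd (m := cn h) (n := 2 ^ J) hm0
        have h5 : 2 ^ J / Nat.gcd (cn h) (2 ^ J) = c := by
          show 2 ^ J / m = c
          exact Nat.div_eq_of_eq_mul_right hm0 hc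
        rw [h5] at h4
        exact h4.symm
      exact h3.dvd_of_dvd_mul_left h1
    intro a ha b hb hab
    simp only [coe_filter, mem_univ, true_and, Set.mem_ofPred_eq] at ha hb
    have h1 := Nat.div_mul_cancel (hdiv a ha)
    have h2 := Nat.div_mul_cancel (hdiv b hb)
    simp only at hab
    rw [hab, h2] at h1
    exact ZMod.val_injective _ h1.symm

lemma card_fib (h z : ZMod (2 ^ J)) :
    #((univ : Finset (ZMod (2 ^ J))).filter (fun b => h * b = z)) ≤ gc h := by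
  rcases ((univ : Finset (ZMod (2 ^ J))).filter (fun b => h * b = z)).eq_empty_or_nonempty
    with h0 | ⟨b0, hb0⟩
  · rw [h0]
    simp
  · rw [mem_filter] at hb0
    refine le_trans (Finset.card_le_card_of_injOn (fun b => b - b0) ?_ ?_) (card_ker h)
    · intro b hb
      simp only [coe_filter, mem_univ, true_and, Set.mem_ofPred_eq] at hb ⊢
      rw [mul_sub, hb, hb0.2, sub_self]
    · intro a _ b _ hab
      exact sub_left_injective hab

/-- the mean over the multipliers -/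
lemma sum_mult (h a : ZMod (2 ^ J)) (F : ZMod (2 ^ J) → ℝ) (hF : ∀ z, 0 ≤ F z) :
    ∑ b, F (a + h * b) ≤ gc h * ∑ z, F z := by
  have h1 : ∑ b, F (a + h * b) = ∑ z, ∑ b ∈ (univ : Finset (ZMod (2 ^ J))).filter
      (fun b => a + h * b = z), F (a + h * b) :=
    (Finset.sum_fiberwise_of_maps_to (fun b _ => mem_univ (a + h * b)) _).symm
  rw [h1, Finset.mul_sum]
  refine Finset.sum_le_sum (fun z _ => ?_)
  have h2 : ∀ b ∈ (univ : Finset (ZMod (2 ^ J))).filter (fun b => a + h * b = z),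
      F (a + h * b) = F z := by
    intro b hb
    rw [mem_filter] at hb
    rw [hb.2]
  rw [Finset.sum_congr rfl h2, Finset.sum_const, nsmul_eq_mul]
  have h3 : #((univ : Finset (ZMod (2 ^ J))).filter (fun b => a + h * b = z)) ≤ gc h := by
    refine le_trans (Finset.card_le_card ?_) (card_fib h (z - a))
    intro b hb
    rw [mem_filter] at hb ⊢
    refine ⟨mem_univ b, ?_⟩
    rw [← hb.2]
    ring
  have h4 : ((#((univ : Finset (ZMod (2 ^ J))).filter (fun b => a + h * b = z)) : ℕ) : ℝ)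
      ≤ gc h := by exact_mod_cast h3
  exact mul_le_mul_of_nonneg_right h4 (hF z)

/-! ### sums of weights -/

lemma geo_half (K : ℕ) : ∑ k ∈ Finset.range K, (1 / 2 : ℝ) ^ k ≤ 2 := by
  rw [geom_sum_eq (by norm_num)]
  have : (0 : ℝ) ≤ (1 / 2) ^ K := by positivity
  have h2 : ((1 / 2 : ℝ) ^ K - 1) / (1 / 2 - 1) = 2 * (1 - (1 / 2) ^ K) := by ring
  rw [h2]
  linarith

/-- the sum of the distance weights -/
lemma sum_kd : ∑ z : ZMod (2 ^ J), (1 / 4 : ℝ) ^ (kd (cn z)) ≤ 8 := by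
  have h1 : ∑ z : ZMod (2 ^ J), (1 / 4 : ℝ) ^ (kd (cn z))
      = ∑ k ∈ Finset.range (J + 2), ∑ z ∈ (univ : Finset (ZMod (2 ^ J))).filter
          (fun z => kd (cn z) = k), (1 / 4 : ℝ) ^ (kd (cn z)) :=
    (Finset.sum_fiberwise_of_maps_to (fun z _ => by
      rw [mem_range]
      have := kd_lt' z
      omega) _).symm
  rw [h1]
  have h2 : ∀ k ∈ Finset.range (J + 2), ∑ z ∈ (univ : Finset (ZMod (2 ^ J))).filter
      (fun z => kd (cn z) = k), (1 / 4 : ℝ) ^ (kd (cn z)) ≤ 4 * (1 / 2) ^ k := by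
    intro k _
    have h3 : ∀ z ∈ (univ : Finset (ZMod (2 ^ J))).filter (fun z => kd (cn z) = k),
        (1 / 4 : ℝ) ^ (kd (cn z)) = (1 / 4) ^ k := by
      intro z hz
      rw [mem_filter] at hz
      rw [hz.2]
    rw [Finset.sum_congr rfl h3, Finset.sum_const, nsmul_eq_mul]
    have h4 : #((univ : Finset (ZMod (2 ^ J))).filter (fun z => kd (cn z) = k))
        ≤ 2 * 2 ^ (k + 1) := by
      refine le_trans (Finset.card_le_card ?_) (card_cn_lt (2 ^ (k + 1)))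
      intro z hz
      rw [mem_filter] at hz ⊢
      refine ⟨mem_univ z, ?_⟩
      have := kd_lt (cn z)
      rw [hz.2] at this
      omega
    have h5 : ((#((univ : Finset (ZMod (2 ^ J))).filter (fun z => kd (cn z) = k)) : ℕ) : ℝ)
        ≤ 2 * 2 ^ (k + 1) := by exact_mod_cast h4
    calc ((#((univ : Finset (ZMod (2 ^ J))).filter (fun z => kd (cn z) = k)) : ℕ) : ℝ)
          * (1 / 4) ^ k ≤ (2 * 2 ^ (k + 1)) * (1 / 4) ^ k :=
            mul_le_mul_of_nonneg_right h5 (by positivity)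
      _ = 4 * ((2 * (1 / 4)) ^ k) := by
          rw [mul_pow, pow_succ]
          ring
      _ = 4 * (1 / 2) ^ k := by norm_num
  refine (Finset.sum_le_sum h2).trans ?_
  rw [← Finset.mul_sum]
  have := geo_half (J + 2)
  linarith

lemma gc_class (g j : ℕ) :
    ∑ h ∈ (univ : Finset (ZMod (2 ^ J))).filter (fun h => h ≠ 0 ∧ jd g h = j), (gc h : ℝ)
      ≤ 4 * 2 ^ g * 2 ^ j * (j + g + 2) := by
  set X : ℕ := 2 ^ (j + 1 + g) with hX
  have h1 : ∑ h ∈ (univ : Finset (ZMod (2 ^ J))).filter (fun h => h ≠ 0 ∧ jd g h = j), (gc h : ℝ)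
      ≤ ∑ h ∈ (univ : Finset (ZMod (2 ^ J))).filter (fun h => h ≠ 0 ∧ cn h ≤ X), (gc h : ℝ) := by
    refine Finset.sum_le_sum_of_subset_of_nonneg ?_ (fun h _ _ => by positivity)
    intro h hh
    rw [mem_filter] at hh ⊢
    refine ⟨mem_univ h, hh.2.1, ?_⟩
    have := cn_lt_jd g h
    rw [hh.2.2] at this
    exact this.le
  refine h1.trans ?_
  have h2 := sum_cn (J := J) (fun n => (Nat.gcd n (2 ^ J) : ℝ)) (fun n => by positivity) X
  refine (le_trans (le_of_eq rfl) h2).trans ?_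
  have h3 : (∑ n ∈ Finset.Ioc 0 X, (Nat.gcd n (2 ^ J) : ℝ)) ≤ ((Nat.log 2 X + 1) * X : ℕ) := by
    exact_mod_cast gcd_sum_log (J := J) X
  have h4 : Nat.log 2 X = j + 1 + g := by
    rw [hX]
    exact Nat.log_pow (by norm_num) _
  rw [h4] at h3
  refine (mul_le_mul_of_nonneg_left h3 (by norm_num)).trans (le_of_eq ?_)
  rw [hX]
  push_cast
  rw [show j + 1 + g = g + j + 1 by ring, pow_succ, pow_add]
  ring

lemma geo_lin (x : ℝ) (hx0 : 0 ≤ x) (hx1 : x < 1) (a : ℝ) (ha : 0 ≤ a) (K : ℕ) :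
    ∑ j ∈ Finset.range K, x ^ j * (j + a) ≤ a / (1 - x) + x / (1 - x) ^ 2 := by
  have hpos : 0 < 1 - x := by linarith
  have h : ∀ K : ℕ, ∑ j ∈ Finset.range K, x ^ j * (j + a)
      = a / (1 - x) + x / (1 - x) ^ 2 - x ^ K * ((K + a) / (1 - x) + x / (1 - x) ^ 2) := by
    intro K
    induction K with
    | zero =>
      simp
    | succ K ih =>
      rw [Finset.sum_range_succ, ih, pow_succ]
      push_cast
      field_simp
      ring
  rw [h]
  have : 0 ≤ x ^ K * ((K + a) / (1 - x) + x / (1 - x) ^ 2) := by positivity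
  linarith

lemma sum_by_class (g : ℕ) (F : ZMod (2 ^ J) → ℝ) :
    ∑ h ∈ (univ : Finset (ZMod (2 ^ J))).filter (fun h => h ≠ 0), F h
      = ∑ j ∈ Finset.range (J + 1), ∑ h ∈ (univ : Finset (ZMod (2 ^ J))).filter
          (fun h => h ≠ 0 ∧ jd g h = j), F h := by
  rw [← Finset.sum_fiberwise_of_maps_to (t := Finset.range (J + 1)) (g := fun h => jd g h)]
  · refine Finset.sum_congr rfl (fun j _ => ?_)
    rw [Finset.filter_filter]
  · intro h _
    rw [mem_range]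
    have := jd_lt g h
    omega

/-- the sum of the weights `x ^ j` of the frequencies -/
lemma sum_weight (g : ℕ) (x : ℝ) (hx0 : 0 ≤ x) (hx1 : 2 * x < 1) :
    ∑ h ∈ (univ : Finset (ZMod (2 ^ J))).filter (fun h => h ≠ 0), x ^ (jd g h) * (gc h : ℝ)
      ≤ 4 * 2 ^ g * ((g + 2) / (1 - 2 * x) + 2 * x / (1 - 2 * x) ^ 2) := by
  rw [sum_by_class g]
  have h1 : ∀ j ∈ Finset.range (J + 1), ∑ h ∈ (univ : Finset (ZMod (2 ^ J))).filter
      (fun h => h ≠ 0 ∧ jd g h = j), x ^ (jd g h) * (gc h : ℝ)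
      ≤ 4 * 2 ^ g * ((2 * x) ^ j * (j + (g + 2))) := by
    intro j _
    have h2 : ∀ h ∈ (univ : Finset (ZMod (2 ^ J))).filter (fun h => h ≠ 0 ∧ jd g h = j),
        x ^ (jd g h) * (gc h : ℝ) = x ^ j * (gc h : ℝ) := by
      intro h hh
      rw [mem_filter] at hh
      rw [hh.2.2]
    rw [Finset.sum_congr rfl h2, ← Finset.mul_sum]
    calc x ^ j * ∑ h ∈ (univ : Finset (ZMod (2 ^ J))).filter (fun h => h ≠ 0 ∧ jd g h = j),
          (gc h : ℝ) ≤ x ^ j * (4 * 2 ^ g * 2 ^ j * (j + g + 2)) :=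
          mul_le_mul_of_nonneg_left (gc_class g j) (by positivity)
      _ = _ := by
          rw [mul_pow]
          ring
  refine (Finset.sum_le_sum h1).trans ?_
  rw [← Finset.mul_sum]
  refine mul_le_mul_of_nonneg_left ?_ (by positivity)
  exact geo_lin (2 * x) (by positivity) hx1 (g + 2) (by positivity) (J + 1)

end Pool.Agent.H12.UBX
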