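import Pool.Agent.H12.UBX.SelA

set_option autoImplicit false
set_option linter.unusedSectionVars false

/-! The greedy choice of the multipliers in the cyclic group. -/

open Finset

namespace Pool.Agent.H12.UBX

variable {J : ℕ}

/-- the weight of a frequency -/
noncomputable def om (g : ℕ) (h : ZMod (2 ^ J)) : ℝ := (1 / 4) ^ (jd g h)

lemma om_pos (g : ℕ) (h : ZMod (2 ^ J)) : 0 < om g h := by unfold om; positivity

lemma om_le_one (g : ℕ) (h : ZMod (2 ^ J)) : om g h ≤ 1 := by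
  unfold om
  exact pow_le_one₀ (by norm_num) (by norm_num)

/-- the near frequencies -/
def Nr (J g K : ℕ) : Finset (ZMod (2 ^ J)) := univ.filter (fun h => h ≠ 0 ∧ jd g h ≤ K)

/-- the near hits at a place -/
def hit (g K : ℕ) (U : Finset (ZMod (2 ^ J))) (b y : ZMod (2 ^ J)) :
    Finset (ZMod (2 ^ J) × ZMod (2 ^ J)) :=
  (Nr J g K ×ˢ U).filter (fun p => p.2 - p.1 * b = y)

/-- the load of a block -/
noncomputable def dl (g K : ℕ) (U : Finset (ZMod (2 ^ J))) (b y : ZMod (2 ^ J)) : ℝ :=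
  ∑ p ∈ hit g K U b y, om g p.1

/-- the squared load of a block -/
noncomputable def ep (g K : ℕ) (U : Finset (ZMod (2 ^ J))) (b y : ZMod (2 ^ J)) : ℝ :=
  ∑ p ∈ hit g K U b y, om g p.1 ^ 2

/-- the admissible multipliers -/
def Gd (g K : ℕ) (U : Finset (ZMod (2 ^ J))) : Finset (ZMod (2 ^ J)) :=
  univ.filter (fun b => Odd b.val ∧ ∀ k : ZMod (2 ^ J), k ≠ 0 → jd g k ≤ K + 1 →
    ∀ u ∈ U, ∀ u' ∈ U, u ≠ u' → k * b ≠ u - u')

lemma odd_cancel {b : ZMod (2 ^ J)} (hb : Odd b.val) {h : ZMod (2 ^ J)} (hh : h * b = 0) :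
    h = 0 := by
  rw [mul_eq_zero_iff] at hh
  have h1 : Nat.Coprime (2 ^ J) b.val := Nat.Coprime.pow_left J (Nat.coprime_two_left.2 hb)
  have h2 : 2 ^ J ∣ cn h := h1.dvd_of_dvd_mul_right hh
  by_contra h0
  have h3 : 0 < cn h := Nat.pos_of_ne_zero (fun h4 => h0 (cn_eq_zero.1 h4))
  have h4 : 2 ^ J ≤ cn h := Nat.le_of_dvd h3 h2
  have h5 : cn h ≤ 2 ^ J / 2 := ZMod.natAbs_valMinAbs_le h
  have h6 : 0 < 2 ^ J := by positivity
  omega

lemma hit_card {g K : ℕ} {U : Finset (ZMod (2 ^ J))} {b : ZMod (2 ^ J)} (hb : b ∈ Gd g K U)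
    (y : ZMod (2 ^ J)) : #(hit g K U b y) ≤ 1 := by
  rw [Finset.card_le_one]
  intro p hp p' hp'
  unfold Gd at hb
  unfold hit Nr at hp hp'
  simp only [mem_filter, mem_product, mem_univ, true_and] at hb hp hp'
  obtain ⟨⟨⟨h1, h2⟩, h3⟩, h4⟩ := hp
  obtain ⟨⟨⟨h1', h2'⟩, h3'⟩, h4'⟩ := hp'
  have e1 : (p.1 - p'.1) * b = p.2 - p'.2 := by
    rw [sub_mul]
    have : p.2 - p.1 * b = p'.2 - p'.1 * b := h4.trans h4'.symm
    linear_combination -this
  by_cases h5 : p.2 = p'.2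
  · have h6 : p.1 - p'.1 = 0 := odd_cancel hb.1 (by rw [e1, h5, sub_self])
    exact Prod.ext (sub_eq_zero.1 h6) h5
  · exfalso
    refine hb.2 (p.1 - p'.1) ?_ (jd_sub h2 h2') p.2 h3 p'.2 h3' h5 e1
    intro h6
    rw [h6, zero_mul] at e1
    exact h5 (sub_eq_zero.1 e1.symm)

lemma dl_nonneg (g K : ℕ) (U : Finset (ZMod (2 ^ J))) (b y : ZMod (2 ^ J)) : 0 ≤ dl g K U b y :=
  Finset.sum_nonneg (fun _ _ => (om_pos _ _).le)

/-- the load takes one value at most -/
lemma dl_cases {g K : ℕ} {U : Finset (ZMod (2 ^ J))} {b : ZMod (2 ^ J)} (hb : b ∈ Gd g K U)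
    (y : ZMod (2 ^ J)) : dl g K U b y ≤ 1 ∧ ep g K U b y = dl g K U b y ^ 2 := by
  have h1 := hit_card hb y
  rcases Nat.le_one_iff_eq_zero_or_eq_one.1 h1 with h0 | h0
  · rw [Finset.card_eq_zero] at h0
    unfold dl ep
    rw [h0]
    simp
  · obtain ⟨p, hp⟩ := Finset.card_eq_one.1 h0
    unfold dl ep
    rw [hp, Finset.sum_singleton, Finset.sum_singleton]
    exact ⟨om_le_one _ _, rfl⟩

/-! ### the number of admissible multipliers -/

lemma card_even (hJ : 1 ≤ J) :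
    #((univ : Finset (ZMod (2 ^ J))).filter (fun b => ¬ Odd b.val)) ≤ 2 ^ (J - 1) := by
  set h0 : ZMod (2 ^ J) := ((2 ^ (J - 1) : ℕ) : ZMod (2 ^ J)) with hh0
  have e0 : 2 ^ J = 2 * 2 ^ (J - 1) := by
    rw [← pow_succ']
    congr 1
    omega
  have hpos : 0 < 2 ^ (J - 1) := by positivity
  have hne : h0 ≠ 0 := by
    intro h
    rw [hh0, ZMod.natCast_eq_zero_iff] at h
    have := Nat.le_of_dvd hpos h
    omega
  have h1 : gc h0 ≤ 2 ^ (J - 1) := by
    have h2 : 0 < cn h0 := Nat.pos_of_ne_zero (fun h4 => hne (cn_eq_zero.1 h4))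
    have h3 : cn h0 ≤ 2 ^ J / 2 := ZMod.natAbs_valMinAbs_le h0
    have h4 : gc h0 ≤ cn h0 := Nat.le_of_dvd h2 (Nat.gcd_dvd_left _ _)
    omega
  refine le_trans (Finset.card_le_card ?_) ((card_ker h0).trans h1)
  intro b hb
  rw [mem_filter] at hb ⊢
  refine ⟨mem_univ _, ?_⟩
  have h2 := Nat.not_odd_iff_even.1 hb.2
  obtain ⟨k, hk⟩ := h2
  have h3 : ((b.val : ℕ) : ZMod (2 ^ J)) = b := ZMod.natCast_zmod_val b
  rw [← h3, hh0, ← Nat.cast_mul, ZMod.natCast_eq_zero_iff, hk, e0]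
  exact ⟨k, by ring⟩

lemma sum_gc_near (g K : ℕ) :
    ∑ k ∈ Nr J g K, gc k ≤ 4 * 2 ^ g * 2 ^ (K + 1) * (K + g + 2) := by
  have h1 : ∑ k ∈ Nr J g K, gc k = ∑ j ∈ Finset.range (K + 1), ∑ k ∈ (Nr J g K).filter
      (fun k => jd g k = j), gc k := by
    refine (Finset.sum_fiberwise_of_maps_to ?_ _).symm
    intro k hk
    unfold Nr at hk
    rw [mem_filter] at hk
    rw [mem_range]
    omega
  have h2 : ∀ j ∈ Finset.range (K + 1), ∑ k ∈ (Nr J g K).filter (fun k => jd g k = j), gc k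
      ≤ 4 * 2 ^ g * (K + g + 2) * 2 ^ j := by
    intro j hj
    rw [mem_range] at hj
    have h3 := gc_class (J := J) g j
    have h4 : ∑ k ∈ (Nr J g K).filter (fun k => jd g k = j), gc k
        ≤ ∑ k ∈ (univ : Finset (ZMod (2 ^ J))).filter (fun h => h ≠ 0 ∧ jd g h = j), gc k := by
      refine Finset.sum_le_sum_of_subset ?_
      intro k hk
      unfold Nr at hk
      rw [mem_filter, mem_filter] at hk
      rw [mem_filter]
      exact ⟨mem_univ _, hk.1.2.1, hk.2⟩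
    refine h4.trans ?_
    have h5 : (∑ k ∈ (univ : Finset (ZMod (2 ^ J))).filter (fun h => h ≠ 0 ∧ jd g h = j), gc k)
        ≤ 4 * 2 ^ g * 2 ^ j * (j + g + 2) := by exact_mod_cast h3
    refine h5.trans ?_
    calc 4 * 2 ^ g * 2 ^ j * (j + g + 2) = 4 * 2 ^ g * (j + g + 2) * 2 ^ j := by ring
      _ ≤ 4 * 2 ^ g * (K + g + 2) * 2 ^ j := by
          refine Nat.mul_le_mul_right _ (Nat.mul_le_mul_left _ ?_)
          omega
  rw [h1]
  refine (Finset.sum_le_sum h2).trans ?_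
  rw [← Finset.mul_sum]
  have h6 : ∑ j ∈ Finset.range (K + 1), 2 ^ j ≤ 2 ^ (K + 1) := by
    rw [Nat.geomSum_eq (le_refl 2)]
    simp
  calc 4 * 2 ^ g * (K + g + 2) * ∑ j ∈ Finset.range (K + 1), 2 ^ j
      ≤ 4 * 2 ^ g * (K + g + 2) * 2 ^ (K + 1) := Nat.mul_le_mul_left _ h6
    _ = _ := by ring

lemma card_Gd {g K G : ℕ} (hJ : 1 ≤ J) {U : Finset (ZMod (2 ^ J))} (hU : #U ≤ G)
    (hq : 4 * (G ^ 2 * (4 * 2 ^ g * 2 ^ (K + 2) * (K + g + 3))) ≤ 2 ^ J) :
    2 ^ J ≤ 4 * #(Gd g K U) := by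
  have h1 : (univ : Finset (ZMod (2 ^ J))) ⊆ Gd g K U ∪
      ((univ.filter (fun b => ¬ Odd b.val)) ∪ (U ×ˢ U).biUnion (fun p =>
        (Nr J g (K + 1)).biUnion (fun k => univ.filter (fun b => k * b = p.1 - p.2)))) := by
    intro b _
    by_cases hb : b ∈ Gd g K U
    · exact mem_union_left _ hb
    · refine mem_union_right _ ?_
      by_cases ho : Odd b.val
      · refine mem_union_right _ ?_
        unfold Gd at hb
        simp only [mem_filter, mem_univ, true_and, not_and, not_forall, not_not] at hb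
        obtain ⟨k, hk, hj, u, hu, u', hu', hne, he⟩ := hb ho
        rw [mem_biUnion]
        refine ⟨(u, u'), mem_product.2 ⟨hu, hu'⟩, ?_⟩
        rw [mem_biUnion]
        refine ⟨k, ?_, ?_⟩
        · unfold Nr
          rw [mem_filter]
          exact ⟨mem_univ _, hk, hj⟩
        · rw [mem_filter]
          exact ⟨mem_univ _, he⟩
      · exact mem_union_left _ (mem_filter.2 ⟨mem_univ _, ho⟩)
  have h2 := Finset.card_le_card h1
  rw [Finset.card_univ, ZMod.card] at h2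
  have h3 : #((U ×ˢ U).biUnion (fun p : ZMod (2 ^ J) × ZMod (2 ^ J) =>
        (Nr J g (K + 1)).biUnion (fun k => univ.filter (fun b => k * b = p.1 - p.2))))
      ≤ G ^ 2 * (4 * 2 ^ g * 2 ^ (K + 2) * (K + g + 3)) := by
    refine Finset.card_biUnion_le.trans ?_
    have h4 : ∀ p ∈ U ×ˢ U, #((Nr J g (K + 1)).biUnion (fun k =>
        (univ : Finset (ZMod (2 ^ J))).filter (fun b => k * b = p.1 - p.2)))
        ≤ 4 * 2 ^ g * 2 ^ (K + 2) * (K + g + 3) := by
      intro p _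
      refine Finset.card_biUnion_le.trans ?_
      refine (Finset.sum_le_sum (fun k _ => card_fib k (p.1 - p.2))).trans ?_
      refine (sum_gc_near g (K + 1)).trans (le_of_eq ?_)
      ring
    refine (Finset.sum_le_sum h4).trans ?_
    rw [Finset.sum_const, smul_eq_mul, card_product]
    refine Nat.mul_le_mul_right _ ?_
    rw [sq]
    exact Nat.mul_le_mul hU hU
  have h4 := card_even hJ
  have e0 : 2 ^ J = 2 * 2 ^ (J - 1) := by
    rw [← pow_succ']
    congr 1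
    omega
  have h5 := Finset.card_union_le (Gd g K U)
    ((univ.filter (fun b : ZMod (2 ^ J) => ¬ Odd b.val)) ∪ (U ×ˢ U).biUnion
      (fun p : ZMod (2 ^ J) × ZMod (2 ^ J) =>
        (Nr J g (K + 1)).biUnion (fun k => univ.filter (fun b => k * b = p.1 - p.2))))
  have h6 := Finset.card_union_le (univ.filter (fun b : ZMod (2 ^ J) => ¬ Odd b.val))
    ((U ×ˢ U).biUnion (fun p : ZMod (2 ^ J) × ZMod (2 ^ J) =>
        (Nr J g (K + 1)).biUnion (fun k => univ.filter (fun b => k * b = p.1 - p.2))))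
  omega

/-! ### one step -/

lemma gc_neg (h : ZMod (2 ^ J)) : gc (-h) = gc h := by
  unfold gc
  rw [cn_neg]

lemma sum_om (g K : ℕ) : ∑ h ∈ Nr J g K, om g h * (gc h : ℝ) ≤ 24 * (g + 1) * 2 ^ g := by
  have h1 : ∑ h ∈ Nr J g K, om g h * (gc h : ℝ)
      ≤ ∑ h ∈ (univ : Finset (ZMod (2 ^ J))).filter (fun h => h ≠ 0),
        (1 / 4 : ℝ) ^ (jd g h) * (gc h : ℝ) := by
    refine Finset.sum_le_sum_of_subset_of_nonneg ?_
      (fun h _ _ => mul_nonneg (om_pos g h).le (Nat.cast_nonneg _))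
    intro h hh
    unfold Nr at hh
    rw [mem_filter] at hh ⊢
    exact ⟨hh.1, hh.2.1⟩
  refine h1.trans ((sum_weight g (1 / 4) (by norm_num) (by norm_num)).trans ?_)
  have h2 : ((g : ℝ) + 2) / (1 - 2 * (1 / 4)) + 2 * (1 / 4) / (1 - 2 * (1 / 4)) ^ 2
      = 2 * g + 6 := by
    norm_num
    ring
  rw [h2]
  have h3 : (0 : ℝ) < 2 ^ g := by positivity
  have h4 : (0 : ℝ) ≤ g := by positivity
  nlinarith [mul_nonneg h3.le h4]

/-- the mean load -/
lemma mean_load (g K : ℕ) (U : Finset (ZMod (2 ^ J))) (F : ZMod (2 ^ J) → ℝ)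
    (hF : ∀ z, 0 ≤ F z) :
    ∑ b, ∑ y, dl g K U b y * F y ≤ #U * (24 * (g + 1) * 2 ^ g) * ∑ y, F y := by
  have h1 : ∀ b : ZMod (2 ^ J), ∑ y, dl g K U b y * F y
      = ∑ h ∈ Nr J g K, ∑ u ∈ U, om g h * F (u - h * b) := by
    intro b
    have h2 : ∑ y, dl g K U b y * F y
        = ∑ y, ∑ p ∈ (Nr J g K ×ˢ U).filter (fun p => p.2 - p.1 * b = y),
          om g p.1 * F (p.2 - p.1 * b) := by
      refine Finset.sum_congr rfl (fun y _ => ?_)
      unfold dl hit
      rw [Finset.sum_mul]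
      refine Finset.sum_congr rfl (fun p hp => ?_)
      rw [mem_filter] at hp
      rw [hp.2]
    rw [h2, Finset.sum_fiberwise_of_maps_to (fun p _ => mem_univ (p.2 - p.1 * b)),
      Finset.sum_product]
  calc ∑ b, ∑ y, dl g K U b y * F y
      = ∑ b, ∑ h ∈ Nr J g K, ∑ u ∈ U, om g h * F (u - h * b) :=
        Finset.sum_congr rfl (fun b _ => h1 b)
    _ = ∑ h ∈ Nr J g K, ∑ u ∈ U, om g h * ∑ b, F (u + (-h) * b) := by
        rw [Finset.sum_comm]
        refine Finset.sum_congr rfl (fun h _ => ?_)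
        rw [Finset.sum_comm]
        refine Finset.sum_congr rfl (fun u _ => ?_)
        rw [Finset.mul_sum]
        refine Finset.sum_congr rfl (fun b _ => ?_)
        rw [neg_mul, ← sub_eq_add_neg]
    _ ≤ ∑ h ∈ Nr J g K, ∑ u ∈ U, om g h * (gc h * ∑ y, F y) := by
        refine Finset.sum_le_sum (fun h _ => Finset.sum_le_sum (fun u _ => ?_))
        refine mul_le_mul_of_nonneg_left ?_ (om_pos _ _).le
        have := sum_mult (-h) u F hF
        rwa [gc_neg] at this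
    _ = #U * (∑ h ∈ Nr J g K, om g h * (gc h : ℝ)) * ∑ y, F y := by
        have e : ∀ S0 : ℝ, ∑ h ∈ Nr J g K, ∑ u ∈ U, om g h * (gc h * S0)
            = #U * (∑ h ∈ Nr J g K, om g h * (gc h : ℝ)) * S0 := by
          intro S0
          rw [Finset.mul_sum, Finset.sum_mul]
          refine Finset.sum_congr rfl (fun h _ => ?_)
          rw [Finset.sum_const, nsmul_eq_mul]
          ring
        exact e _
    _ ≤ #U * (24 * (g + 1) * 2 ^ g) * ∑ y, F y := by
        refine mul_le_mul_of_nonneg_right ?_ (Finset.sum_nonneg (fun y _ => hF y))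
        exact mul_le_mul_of_nonneg_left (sum_om g K) (by positivity)

/-- the greedy step -/
lemma step {g K G : ℕ} (hJ : 1 ≤ J) {U : Finset (ZMod (2 ^ J))} (hU : #U ≤ G)
    (hq : 4 * (G ^ 2 * (4 * 2 ^ g * 2 ^ (K + 2) * (K + g + 3))) ≤ 2 ^ J)
    (W : ZMod (2 ^ J) → ℝ) (hW : ∑ y, Real.exp (W y) ≤ 3 * 2 ^ J) :
    ∃ b ∈ Gd g K U, (∀ y, dl g K U b y * Real.exp (W y) ≤ 288 * G * (g + 1) * 2 ^ g) ∧
      ∑ y, Real.exp (W y + dl g K U b y)
        ≤ (∑ y, Real.exp (W y)) * (1 + 192 * (g + 1) * 2 ^ g / 2 ^ J * #U) := by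
  have hcard := card_Gd hJ hU hq
  have hqp : (0 : ℝ) < 2 ^ J := by positivity
  have hcard' : (2 : ℝ) ^ J ≤ 4 * (#(Gd g K U) : ℝ) := by exact_mod_cast hcard
  have hne : (Gd g K U).Nonempty := by
    rw [← Finset.card_pos]
    have : 0 < 2 ^ J := by positivity
    omega
  set Φ := ∑ y, Real.exp (W y) with hΦ
  have hΦ0 : 0 ≤ Φ := Finset.sum_nonneg (fun y _ => (Real.exp_pos _).le)
  set Y : ZMod (2 ^ J) → ℝ := fun b => ∑ y, dl g K U b y * Real.exp (W y) with hY
  have hY0 : ∀ b, 0 ≤ Y b := fun b => Finset.sum_nonneg (fun y _ =>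
    mul_nonneg (dl_nonneg _ _ _ _ _) (Real.exp_pos _).le)
  have hmean : ∑ b ∈ Gd g K U, Y b ≤ #U * (24 * (g + 1) * 2 ^ g) * Φ := by
    refine le_trans (Finset.sum_le_sum_of_subset_of_nonneg (Finset.subset_univ _)
      (fun b _ _ => hY0 b)) ?_
    exact mean_load g K U (fun y => Real.exp (W y)) (fun y => (Real.exp_pos _).le)
  obtain ⟨b, hb, hbY⟩ : ∃ b ∈ Gd g K U, Y b ≤ 96 * (g + 1) * 2 ^ g / 2 ^ J * #U * Φ := by
    refine Finset.exists_le_of_sum_le hne ?_
    rw [Finset.sum_const, nsmul_eq_mul]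
    refine hmean.trans ?_
    have h1 : 0 ≤ 24 * ((g : ℝ) + 1) * 2 ^ g / 2 ^ J * #U * Φ := by positivity
    have h2 : (#U : ℝ) * (24 * (g + 1) * 2 ^ g) * Φ
        = 2 ^ J * (24 * ((g : ℝ) + 1) * 2 ^ g / 2 ^ J * #U * Φ) := by
      field_simp
    rw [h2]
    calc (2 : ℝ) ^ J * (24 * ((g : ℝ) + 1) * 2 ^ g / 2 ^ J * #U * Φ)
        ≤ 4 * (#(Gd g K U) : ℝ) * (24 * ((g : ℝ) + 1) * 2 ^ g / 2 ^ J * #U * Φ) :=
          mul_le_mul_of_nonneg_right hcard' h1
      _ = _ := by ring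
  refine ⟨b, hb, fun y => ?_, ?_⟩
  · have h1 : dl g K U b y * Real.exp (W y) ≤ Y b :=
      Finset.single_le_sum (f := fun y => dl g K U b y * Real.exp (W y))
        (fun y _ => mul_nonneg (dl_nonneg _ _ _ _ _) (Real.exp_pos _).le) (mem_univ y)
    refine h1.trans (hbY.trans ?_)
    have h2 : 96 * ((g : ℝ) + 1) * 2 ^ g / 2 ^ J * #U * Φ
        ≤ 96 * ((g : ℝ) + 1) * 2 ^ g / 2 ^ J * #U * (3 * 2 ^ J) :=
      mul_le_mul_of_nonneg_left hW (by positivity)
    refine h2.trans ?_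
    have h3 : 96 * ((g : ℝ) + 1) * 2 ^ g / 2 ^ J * #U * (3 * 2 ^ J)
        = 288 * #U * (g + 1) * 2 ^ g := by
      field_simp
      ring
    rw [h3]
    have h4 : (#U : ℝ) ≤ G := by exact_mod_cast hU
    have h5 : 0 ≤ ((g : ℝ) + 1) * 2 ^ g := by positivity
    nlinarith [mul_le_mul_of_nonneg_right h4 h5]
  · have h1 : ∀ y, Real.exp (W y + dl g K U b y)
        ≤ Real.exp (W y) + 2 * (dl g K U b y * Real.exp (W y)) := by
      intro y
      have h2 := (dl_cases hb y).1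
      have h3 := dl_nonneg g K U b y
      have h4 : Real.exp (dl g K U b y) ≤ 1 + 2 * dl g K U b y := by
        have h5 := Real.abs_exp_sub_one_le (x := dl g K U b y) (by rw [abs_of_nonneg h3]; exact h2)
        rw [abs_of_nonneg h3] at h5
        have := (abs_le.1 h5).2
        linarith
      rw [Real.exp_add]
      calc Real.exp (W y) * Real.exp (dl g K U b y)
          ≤ Real.exp (W y) * (1 + 2 * dl g K U b y) :=
            mul_le_mul_of_nonneg_left h4 (Real.exp_pos _).le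
        _ = _ := by ring
    refine (Finset.sum_le_sum (fun y _ => h1 y)).trans ?_
    rw [Finset.sum_add_distrib, ← Finset.mul_sum]
    have h2 : ∑ y, dl g K U b y * Real.exp (W y) = Y b := rfl
    rw [h2]
    calc Φ + 2 * Y b ≤ Φ + 2 * (96 * (g + 1) * 2 ^ g / 2 ^ J * #U * Φ) := by linarith
      _ = _ := by ring

/-- the local inequality -/
lemma inv_step {X τ w : ℝ} (hX : 0 < X) (hτ : 0 < τ) (hw0 : 0 ≤ w) (hw1 : w ≤ 1)
    (h : τ * w ≤ X) : Real.exp (w ^ 2 / 4) * (X * Real.exp (-w) + τ) ≤ X + τ := by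
  have ha0 : 0 ≤ w ^ 2 / 4 := by positivity
  have ha1 : w ^ 2 / 4 ≤ w / 4 := by nlinarith
  have h1 : 1 - w ^ 2 / 4 ≤ Real.exp (-(w ^ 2 / 4)) := by
    have := Real.add_one_le_exp (-(w ^ 2 / 4))
    linarith
  have h2 : Real.exp (-w) ≤ 1 - w / 2 := by
    have h3 := Real.add_one_le_exp w
    have h4 : Real.exp (-w) * Real.exp w = 1 := by rw [← Real.exp_add]; simp
    have h5 : 0 < Real.exp (-w) := Real.exp_pos _
    have h6 : Real.exp (-w) * (w + 1) ≤ 1 :=
      (mul_le_mul_of_nonneg_left h3 h5.le).trans (le_of_eq h4)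
    have h7 : Real.exp (-w) ≤ 1 / (w + 1) := by
      rw [le_div_iff₀ (by linarith)]
      exact h6
    refine h7.trans ?_
    rw [div_le_iff₀ (by linarith)]
    nlinarith
  have h3 : X * Real.exp (-w) + τ ≤ (X + τ) * (1 - w ^ 2 / 4) := by
    have h4 : X * Real.exp (-w) ≤ X * (1 - w / 2) := mul_le_mul_of_nonneg_left h2 hX.le
    have h5 : X * (w / 4) ≥ τ * w * (w / 4) := mul_le_mul_of_nonneg_right h (by positivity)
    nlinarith
  have h4 : (X + τ) * (1 - w ^ 2 / 4) ≤ (X + τ) * Real.exp (-(w ^ 2 / 4)) :=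
    mul_le_mul_of_nonneg_left h1 (by positivity)
  calc Real.exp (w ^ 2 / 4) * (X * Real.exp (-w) + τ)
      ≤ Real.exp (w ^ 2 / 4) * ((X + τ) * Real.exp (-(w ^ 2 / 4))) :=
        mul_le_mul_of_nonneg_left (h3.trans h4) (Real.exp_pos _).le
    _ = (X + τ) * (Real.exp (w ^ 2 / 4) * Real.exp (-(w ^ 2 / 4))) := by ring
    _ = X + τ := by
        rw [← Real.exp_add, add_neg_cancel, Real.exp_zero, mul_one]

/-- the choice of the multipliers -/
theorem greedy {S : Type*} [DecidableEq S] {g K G : ℕ} (hJ : 1 ≤ J) (hG : 1 ≤ G)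
    (U : S → Finset (ZMod (2 ^ J))) (hU : ∀ s, #(U s) ≤ G)
    (hq : 4 * (G ^ 2 * (4 * 2 ^ g * 2 ^ (K + 2) * (K + g + 3))) ≤ 2 ^ J) (A : Finset S)
    (hA : 192 * ((g : ℝ) + 1) * 2 ^ g * ∑ s ∈ A, (#(U s) : ℝ) ≤ 2 ^ J) :
    ∃ b : S → ZMod (2 ^ J), (∀ s ∈ A, b s ∈ Gd g K (U s)) ∧
      (∑ y, Real.exp (∑ s ∈ A, dl g K (U s) (b s) y) ≤ 2 ^ J *
        Real.exp (192 * (g + 1) * 2 ^ g / 2 ^ J * ∑ s ∈ A, (#(U s) : ℝ))) ∧
      ∀ y, Real.exp ((∑ s ∈ A, ep g K (U s) (b s) y) / 4) *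
        (Real.exp (-∑ s ∈ A, dl g K (U s) (b s) y) + 1 / (288 * G * (g + 1) * 2 ^ g))
          ≤ 1 + 1 / (288 * G * (g + 1) * 2 ^ g) := by
  induction A using Finset.induction_on with
  | empty =>
    refine ⟨fun _ => 0, fun s hs => absurd hs (by simp), ?_, fun y => ?_⟩
    · simp
    · simp
  | insert a A ha ih =>
    have hqp : (0 : ℝ) < 2 ^ J := by positivity
    have hc0 : 0 ≤ 192 * ((g : ℝ) + 1) * 2 ^ g := by positivity
    rw [Finset.sum_insert ha, mul_add] at hA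
    have ha0 : 0 ≤ 192 * ((g : ℝ) + 1) * 2 ^ g * (#(U a) : ℝ) := by positivity
    obtain ⟨b, hb1, hb2, hb3⟩ := ih (by linarith)
    set W : ZMod (2 ^ J) → ℝ := fun y => ∑ s ∈ A, dl g K (U s) (b s) y with hWd
    have hW3 : ∑ y, Real.exp (W y) ≤ 3 * 2 ^ J := by
      refine hb2.trans ?_
      have h1 : 192 * ((g : ℝ) + 1) * 2 ^ g / 2 ^ J * ∑ s ∈ A, (#(U s) : ℝ) ≤ 1 := by
        rw [div_mul_eq_mul_div, div_le_one hqp]
        linarith
      have h2 : Real.exp (192 * ((g : ℝ) + 1) * 2 ^ g / 2 ^ J * ∑ s ∈ A, (#(U s) : ℝ)) ≤ 3 := by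
        refine (Real.exp_le_exp.2 h1).trans ?_
        have := Real.exp_one_lt_d9
        linarith
      nlinarith
    obtain ⟨c, hc1, hc2, hc3⟩ := step hJ (hU a) hq W hW3
    have hupd : ∀ s ∈ A, Function.update b a c s = b s := by
      intro s hs
      refine Function.update_of_ne ?_ _ _
      rintro rfl
      exact ha hs
    have hdl : ∀ y, ∑ s ∈ insert a A, dl g K (U s) (Function.update b a c s) y
        = W y + dl g K (U a) c y := by
      intro y
      rw [Finset.sum_insert ha, Function.update_self, add_comm]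
      congr 1
      exact Finset.sum_congr rfl (fun s hs => by rw [hupd s hs])
    have hep : ∀ y, ∑ s ∈ insert a A, ep g K (U s) (Function.update b a c s) y
        = (∑ s ∈ A, ep g K (U s) (b s) y) + ep g K (U a) c y := by
      intro y
      rw [Finset.sum_insert ha, Function.update_self, add_comm]
      congr 1
      exact Finset.sum_congr rfl (fun s hs => by rw [hupd s hs])
    refine ⟨Function.update b a c, ?_, ?_, ?_⟩
    · intro s hs
      rw [Finset.mem_insert] at hs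
      rcases hs with rfl | hs
      · rw [Function.update_self]
        exact hc1
      · rw [hupd s hs]
        exact hb1 s hs
    · simp only [hdl]
      refine hc3.trans ?_
      have e1 : Real.exp (192 * ((g : ℝ) + 1) * 2 ^ g / 2 ^ J * ∑ s ∈ insert a A, (#(U s) : ℝ))
          = Real.exp (192 * ((g : ℝ) + 1) * 2 ^ g / 2 ^ J * ∑ s ∈ A, (#(U s) : ℝ))
            * Real.exp (192 * ((g : ℝ) + 1) * 2 ^ g / 2 ^ J * #(U a)) := by
        rw [Finset.sum_insert ha, ← Real.exp_add]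
        congr 1
        ring
      rw [e1]
      have h1 : 1 + 192 * ((g : ℝ) + 1) * 2 ^ g / 2 ^ J * #(U a)
          ≤ Real.exp (192 * ((g : ℝ) + 1) * 2 ^ g / 2 ^ J * #(U a)) := by
        have := Real.add_one_le_exp (192 * ((g : ℝ) + 1) * 2 ^ g / 2 ^ J * #(U a))
        linarith
      have h2 : 0 ≤ 1 + 192 * ((g : ℝ) + 1) * 2 ^ g / 2 ^ J * #(U a) := by positivity
      calc (∑ y, Real.exp (W y)) * (1 + 192 * ((g : ℝ) + 1) * 2 ^ g / 2 ^ J * #(U a))
          ≤ (2 ^ J * Real.exp (192 * (g + 1) * 2 ^ g / 2 ^ J * ∑ s ∈ A, (#(U s) : ℝ)))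
            * Real.exp (192 * ((g : ℝ) + 1) * 2 ^ g / 2 ^ J * #(U a)) :=
            mul_le_mul hb2 h1 h2 (by positivity)
        _ = _ := by ring
    · intro y
      rw [hdl, hep]
      set w := dl g K (U a) c y with hw
      have hw0 : 0 ≤ w := dl_nonneg _ _ _ _ _
      obtain ⟨hw1, hw2⟩ := dl_cases hc1 y
      rw [hw2]
      set τ : ℝ := 1 / (288 * G * (g + 1) * 2 ^ g) with hτ
      have hGr : (1 : ℝ) ≤ G := by exact_mod_cast hG
      have hD : (0 : ℝ) < 288 * G * (g + 1) * 2 ^ g := by positivity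
      have hτ0 : 0 < τ := by rw [hτ]; positivity
      have hX : 0 < Real.exp (-W y) := Real.exp_pos _
      have hcond : τ * w ≤ Real.exp (-W y) := by
        have h1 := hc2 y
        rw [Real.exp_neg, hτ, one_div, inv_mul_eq_div, div_le_iff₀ hD, inv_mul_eq_div,
          le_div_iff₀ (Real.exp_pos _)]
        exact h1
      have h1 := inv_step hX hτ0 hw0 hw1 hcond
      have e1 : Real.exp (-(W y + w)) = Real.exp (-W y) * Real.exp (-w) := by
        rw [← Real.exp_add]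
        congr 1
        ring
      have e2 : Real.exp (((∑ s ∈ A, ep g K (U s) (b s) y) + w ^ 2) / 4)
          = Real.exp ((∑ s ∈ A, ep g K (U s) (b s) y) / 4) * Real.exp (w ^ 2 / 4) := by
        rw [← Real.exp_add]
        congr 1
        ring
      rw [e1, e2, mul_assoc]
      refine le_trans (mul_le_mul_of_nonneg_left h1 (Real.exp_pos _).le) ?_
      exact hb3 y

/-- the choice of the multipliers, with the final bound -/
theorem sel_core {S : Type*} [Fintype S] {g K G : ℕ} (hJ : 1 ≤ J) (hG : 1 ≤ G)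
    (U : S → Finset (ZMod (2 ^ J))) (hU : ∀ s, #(U s) ≤ G)
    (hq : 4 * (G ^ 2 * (4 * 2 ^ g * 2 ^ (K + 2) * (K + g + 3))) ≤ 2 ^ J)
    (hA : 192 * ((g : ℝ) + 1) * 2 ^ g * ∑ s, (#(U s) : ℝ) ≤ 2 ^ J) :
    ∃ b : S → ZMod (2 ^ J), (∀ s, Odd (b s).val) ∧
      ∀ y, ∑ s, ep g K (U s) (b s) y ≤ 4 * Real.log (576 * G * (g + 1) * 2 ^ g) := by
  classical
  obtain ⟨b, hb1, -, hb3⟩ := greedy hJ hG U hU hq univ hA
  refine ⟨b, fun s => ?_, fun y => ?_⟩
  · have := hb1 s (mem_univ s)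
    unfold Gd at this
    rw [mem_filter] at this
    exact this.2.1
  · have h1 := hb3 y
    have hGr : (1 : ℝ) ≤ G := by exact_mod_cast hG
    set D : ℝ := 288 * G * (g + 1) * 2 ^ g with hD
    have hgr : (1 : ℝ) ≤ (g : ℝ) + 1 := by
      have : (0 : ℝ) ≤ g := by positivity
      linarith
    have h2g : (1 : ℝ) ≤ 2 ^ g := one_le_pow₀ (by norm_num)
    have hD1 : 1 ≤ D := by
      rw [hD]
      have h3 : (1 : ℝ) ≤ G * (g + 1) := by nlinarith
      have h4 : (1 : ℝ) ≤ G * (g + 1) * 2 ^ g := by nlinarith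
      nlinarith
    have hD0 : 0 < D := by linarith
    set V := ∑ s, ep g K (U s) (b s) y with hV
    have h2 : Real.exp (V / 4) * (1 / D) ≤ 1 + 1 / D := by
      refine le_trans (mul_le_mul_of_nonneg_left ?_ (Real.exp_pos _).le) h1
      have := Real.exp_pos (-∑ s, dl g K (U s) (b s) y)
      linarith
    have h3 : Real.exp (V / 4) ≤ 2 * D := by
      have h4 : Real.exp (V / 4) * (1 / D) * D ≤ (1 + 1 / D) * D :=
        mul_le_mul_of_nonneg_right h2 hD0.le
      have h5 : Real.exp (V / 4) * (1 / D) * D = Real.exp (V / 4) := by field_simp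
      have h6 : (1 + 1 / D) * D = D + 1 := by field_simp
      rw [h5, h6] at h4
      linarith
    have h4 : V / 4 ≤ Real.log (2 * D) := by
      rw [Real.le_log_iff_exp_le (by positivity)]
      exact h3
    have h5 : 2 * D = 576 * G * (g + 1) * 2 ^ g := by
      rw [hD]
      ring
    rw [h5] at h4
    linarith

end Pool.Agent.H12.UBX
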